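import Pool.Agent.Q205.HC.CertData

namespace Pool.Agent.Q205.HC
open Filter Topology


noncomputable def ww : ℂ := Complex.I * ((Real.sqrt 11 : ℝ) : ℂ)

theorem ww_sq : ww ^ 2 = -11 := by
  unfold ww
  rw [mul_pow, Complex.I_sq, ← Complex.ofReal_pow, Real.sq_sqrt (by norm_num)]
  norm_num

theorem ww_conj : (starRingEnd ℂ) ww = -ww := by
  unfold ww
  simp

noncomputable def ga : ℂ := -19 / 30 + 7 / 30 * ww
noncomputable def gb : ℂ := -14 / 30 - 8 / 30 * ww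
noncomputable def ga' : ℂ := -19 / 30 - 7 / 30 * ww
noncomputable def gb' : ℂ := -14 / 30 + 8 / 30 * ww

theorem ga_mul : ga * ga' = 1 := by
  unfold ga ga'; linear_combination (-49 / 900) * ww_sq
theorem gb_mul : gb * gb' = 1 := by
  unfold gb gb'; linear_combination (-64 / 900) * ww_sq
theorem ga_conj : (starRingEnd ℂ) ga = ga' := by
  unfold ga ga'
  simp only [map_add, map_mul, map_div₀, map_neg, map_ofNat, ww_conj]
  ring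
theorem gb_conj : (starRingEnd ℂ) gb = gb' := by
  unfold gb gb'
  simp only [map_sub, map_mul, map_div₀, map_neg, map_ofNat, ww_conj]
  ring
theorem ga'_conj : (starRingEnd ℂ) ga' = ga := by rw [← ga_conj, Complex.conj_conj]

/-- `e^{ik₁}` -/
noncomputable def β₁ : ℂ := gb * ga' ^ 4

theorem β₁_conj : (starRingEnd ℂ) β₁ = gb' * ga ^ 4 := by
  unfold β₁; rw [map_mul, map_pow, gb_conj, ga'_conj]

theorem norm_of_mul_conj {z z' : ℂ} (h : z * z' = 1) (hc : (starRingEnd ℂ) z = z') : ‖z‖ = 1 := by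
  have h1 : z * (starRingEnd ℂ) z = 1 := by rw [hc, h]
  rw [Complex.mul_conj, Complex.normSq_eq_norm_sq] at h1
  have h2 : ‖z‖ ^ 2 = 1 := by exact_mod_cast h1
  have h3 := norm_nonneg z
  nlinarith

theorem ga_norm : ‖ga‖ = 1 := norm_of_mul_conj ga_mul ga_conj
theorem gb_norm : ‖gb‖ = 1 := norm_of_mul_conj gb_mul gb_conj
theorem ga'_norm : ‖ga'‖ = 1 := by rw [← ga_conj, RCLike.norm_conj, ga_norm]

theorem β₁_eq : β₁ = 5299 / 60750 + 18247 / 60750 * ww := by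
  unfold β₁ gb ga'
  have h := ww_sq
  have h4 : (-19 / 30 - 7 / 30 * ww) ^ 4 = (-19 / 30 - 7 / 30 * ww) ^ 2 * (-19 / 30 - 7 / 30 * ww) ^ 2 := by ring
  have h2 : (-19 / 30 - 7 / 30 * ww) ^ 2 = -89 / 450 + 133 / 450 * ww := by
    linear_combination (49 / 900) * h
  have h22 : (-19 / 30 - 7 / 30 * ww) ^ 4 = -93329 / 101250 - 11837 / 101250 * ww := by
    rw [h4, h2]
    linear_combination (133 ^ 2 / 450 ^ 2) * h
  rw [h22]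
  linear_combination (8 / 30 * 11837 / 101250) * h

/-- the padded, gauged sequence -/
noncomputable def ZZ (x : ℕ → ℂ) (n : ℕ) : ℂ := if 5 ≤ n then ga' ^ (n - 5) * x (n - 5) else 0

theorem ZZ_add (x : ℕ → ℂ) (n : ℕ) : ZZ x (n + 5) = ga' ^ n * x n := by
  simp [ZZ]

theorem ZZ_lt (x : ℕ → ℂ) (n : ℕ) (h : n < 5) : ZZ x n = 0 := by
  rw [ZZ, if_neg (by omega)]

theorem ZZ_norm (x : ℕ → ℂ) (n : ℕ) : ‖ZZ x (n + 5)‖ = ‖x n‖ := by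
  rw [ZZ_add, norm_mul, norm_pow, ga'_norm]; simp

theorem LT_eq (x : ℕ → ℂ) (m : ℕ) :
    LT ww (ZZ x (m + 3)) (ZZ x (m + 4)) (ZZ x (m + 5)) (ZZ x (m + 6)) (ZZ x (m + 7))
      = ga' ^ (m + 2) * ga ^ 4 * Tseq β₁ x m := by
  have e7 : ZZ x (m + 7) = ga' ^ (m + 2) * x (m + 2) := ZZ_add x (m + 2)
  have h4 : ga' ^ 4 * ga ^ 4 = 1 := by rw [← mul_pow, mul_comm ga' ga, ga_mul, one_pow]
  have h3 : ga' ^ 3 * ga ^ 3 = 1 := by rw [← mul_pow, mul_comm ga' ga, ga_mul, one_pow]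
  have hL : ∀ z0 z1 z4 : ℂ, LT ww z0 z1 (ZZ x (m + 5)) (ZZ x (m + 6)) z4 = z0 + ga * z1 + gb * z4 := by
    intros; rfl
  rw [hL, e7]
  match m with
  | 0 =>
    rw [ZZ_lt x 3 (by norm_num), ZZ_lt x 4 (by norm_num)]
    simp only [Tseq, sh, β₁]
    norm_num
    linear_combination (-(gb * ga' ^ 2 * x 2)) * h4
  | 1 =>
    rw [ZZ_lt x 4 (by norm_num), show (1 + 4 : ℕ) = 0 + 5 from rfl, ZZ_add]
    simp only [Tseq, sh, β₁]
    norm_num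
    linear_combination (-(gb * ga' ^ 3 * x 3)) * h4 - ga * x 0 * h3
  | (k + 2) =>
    rw [show k + 2 + 3 = k + 5 from rfl, show k + 2 + 4 = (k + 1) + 5 from rfl, ZZ_add, ZZ_add]
    have s1 : sh 1 x (k + 2) = x (k + 1) := by simp [sh]
    have s2 : sh 2 x (k + 2) = x k := by simp [sh]
    simp only [Tseq, β₁, s1, s2]
    linear_combination (-(gb * ga' ^ (k + 4) * x (k + 4)) - ga' ^ k * x k) * h4
      - ga' ^ (k + 1) * ga * x (k + 1) * h3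

theorem LS_eq (y : ℕ → ℂ) (m : ℕ) :
    LS ww (ZZ y (m + 3)) (ZZ y (m + 4)) (ZZ y (m + 5)) (ZZ y (m + 6)) (ZZ y (m + 7))
      = ga' ^ (m + 2) * Tadj β₁ y m := by
  have e7 : ZZ y (m + 7) = ga' ^ (m + 2) * y (m + 2) := ZZ_add y (m + 2)
  have e6 : ZZ y (m + 6) = ga' ^ (m + 1) * y (m + 1) := ZZ_add y (m + 1)
  have h4 : ga' ^ 4 * ga ^ 4 = 1 := by rw [← mul_pow, mul_comm ga' ga, ga_mul, one_pow]
  have hL : ∀ z0 z3 z4 : ℂ, LS ww z0 (ZZ y (m + 4)) (ZZ y (m + 5)) z3 z4 = z4 + ga' * z3 + gb' * z0 := by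
    intros; rfl
  rw [hL, e7, e6]
  simp only [Tadj, β₁_conj]
  match m with
  | 0 =>
    rw [ZZ_lt y 3 (by norm_num)]
    simp [sh]
    ring
  | 1 =>
    rw [ZZ_lt y 4 (by norm_num)]
    simp [sh]
    ring
  | (k + 2) =>
    rw [show k + 2 + 3 = k + 5 from rfl, ZZ_add]
    have s2 : sh 2 y (k + 2) = y k := by simp [sh]
    rw [s2]
    linear_combination (-(gb' * ga' ^ k * y k)) * h4


theorem key_bound (F G q V : ℕ → ℝ) (h : ∀ n, F n - G n = q n + (V (n + 1) - V n))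
    (hq : ∀ n, 0 ≤ q n) (hV0 : V 0 = 0) (hV : Tendsto V atTop (𝓝 0))
    (hb : F 0 + F 1 + F 2 - (G 0 + G 1 + G 2) ≤ q 0 + q 1 + q 2) (a b : ℝ)
    (SF : HasSum (fun n => F (n + 3)) a) (SG : HasSum (fun n => G (n + 3)) b) : b ≤ a := by
  have hsum : ∀ N, ∑ n ∈ Finset.range N, (F n - G n) = ∑ n ∈ Finset.range N, q n + V N := by
    intro N
    induction N with
    | zero => simp [hV0]
    | succ N ih => rw [Finset.sum_range_succ, Finset.sum_range_succ, ih, h]; ring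
  have h3 : ∀ N, V (N + 3) ≤ ∑ n ∈ Finset.range N, (F (n + 3) - G (n + 3)) := by
    intro N
    have e1 := hsum (N + 3)
    rw [Finset.sum_range_succ' , Finset.sum_range_succ', Finset.sum_range_succ',
      Finset.sum_range_succ' q, Finset.sum_range_succ' (fun n => q (n + 1)),
      Finset.sum_range_succ' (fun n => q (n + 1 + 1))] at e1
    have e2 : 0 ≤ ∑ n ∈ Finset.range N, q (n + 1 + 1 + 1) := Finset.sum_nonneg fun n _ => hq _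
    have e3 : ∑ n ∈ Finset.range N, (F (n + 1 + 1 + 1) - G (n + 1 + 1 + 1))
        = ∑ n ∈ Finset.range N, (F (n + 3) - G (n + 3)) := rfl
    simp only [zero_add] at e1
    rw [e3] at e1
    norm_num at e1
    rw [Finset.sum_sub_distrib]
    linarith
  have h4 : Tendsto (fun N => ∑ n ∈ Finset.range N, (F (n + 3) - G (n + 3))) atTop (𝓝 (a - b)) :=
    (SF.sub SG).tendsto_sum_nat
  have h5 : Tendsto (fun N => V (N + 3)) atTop (𝓝 0) := (tendsto_add_atTop_iff_nat 3).mpr hV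
  have := le_of_tendsto_of_tendsto' h5 h4 h3
  linarith

theorem qform_eq (z0 z1 z2 z3 z4 : ℂ) :
    (qform ww z0 z1 z2 z3 z4 ((starRingEnd ℂ) z0) ((starRingEnd ℂ) z1) ((starRingEnd ℂ) z2) ((starRingEnd ℂ) z3) ((starRingEnd ℂ) z4)).re
      = 89 / 50 * ‖Lf3 ww z0 z1 z2 z3 z4‖ ^ 2 + 1 / 500 * ‖Lf2 ww z0 z1 z2 z3 z4‖ ^ 2
        + 1 / 200 * ‖Lf1 ww z0 z1 z2 z3 z4‖ ^ 2
        + 19258714069 / 33103828125000 * ‖Lf0 ww z0 z1 z2 z3 z4‖ ^ 2 := by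
  unfold qform
  rw [← ww_conj, ← Lf3_conj, ← Lf2_conj, ← Lf1_conj, ← Lf0_conj, Complex.mul_conj', Complex.mul_conj',
    Complex.mul_conj', Complex.mul_conj']
  have : ∀ r1 r2 r3 r4 : ℝ, ((89 / 50 : ℂ) * (r1 : ℂ) ^ 2 + (1 / 500) * (r2 : ℂ) ^ 2
      + (1 / 200) * (r3 : ℂ) ^ 2 + (19258714069 / 33103828125000) * (r4 : ℂ) ^ 2).re
      = 89 / 50 * r1 ^ 2 + 1 / 500 * r2 ^ 2 + 1 / 200 * r3 ^ 2
        + 19258714069 / 33103828125000 * r4 ^ 2 := by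
    intro r1 r2 r3 r4
    have : ((89 / 50 : ℂ) * (r1 : ℂ) ^ 2 + (1 / 500) * (r2 : ℂ) ^ 2
      + (1 / 200) * (r3 : ℂ) ^ 2 + (19258714069 / 33103828125000) * (r4 : ℂ) ^ 2)
      = ((89 / 50 * r1 ^ 2 + 1 / 500 * r2 ^ 2 + 1 / 200 * r3 ^ 2
        + 19258714069 / 33103828125000 * r4 ^ 2 : ℝ) : ℂ) := by push_cast; ring
    rw [this, Complex.ofReal_re]
  exact this _ _ _ _


theorem ZZ_tendsto {x : ℕ → ℂ} (hx : Summable fun n => ‖x n‖ ^ 2) (j : ℕ) :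
    Tendsto (fun n => ZZ x (n + j)) atTop (𝓝 0) := by
  have h0 : Tendsto (fun n => ZZ x (n + 5)) atTop (𝓝 0) := by
    rw [tendsto_zero_iff_norm_tendsto_zero]
    simp only [ZZ_norm]
    exact tendsto_zero_iff_norm_tendsto_zero.mp (tendsto_zero_of_summable_sq hx)
  have h1 : Tendsto (ZZ x) atTop (𝓝 0) := (tendsto_add_atTop_iff_nat 5).mp h0
  exact (tendsto_add_atTop_iff_nat j).mpr h1

theorem V_tendsto {x : ℕ → ℂ} (hx : Summable fun n => ‖x n‖ ^ 2)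
    (V : ℂ → ℂ → ℂ → ℂ → ℂ) (hV : Continuous fun p : ℂ × ℂ × ℂ × ℂ => V p.1 p.2.1 p.2.2.1 p.2.2.2)
    (hV0 : V 0 0 0 0 = 0) :
    Tendsto (fun n => (V (ZZ x n) (ZZ x (n + 1)) (ZZ x (n + 2)) (ZZ x (n + 3))).re) atTop (𝓝 0) := by
  have h1 : Tendsto (fun n => ((ZZ x n, ZZ x (n + 1), ZZ x (n + 2), ZZ x (n + 3)) : ℂ × ℂ × ℂ × ℂ))
      atTop (𝓝 (0, 0, 0, 0)) :=
    (ZZ_tendsto hx 0).prodMk_nhds ((ZZ_tendsto hx 1).prodMk_nhds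
      ((ZZ_tendsto hx 2).prodMk_nhds (ZZ_tendsto hx 3)))
  have h2 := (hV.tendsto (0, 0, 0, 0)).comp h1
  have h3 := (Complex.continuous_re.tendsto _).comp h2
  simpa [Function.comp_def, hV0] using h3

theorem re_sub_real (F G : ℝ) (q V V' : ℂ) (h : (F : ℂ) ^ 2 - 1 / 45 * (G : ℂ) ^ 2 = q + (V - V')) :
    F ^ 2 - 1 / 45 * G ^ 2 = q.re + (V.re - V'.re) := by
  have h1 : (((F ^ 2 - 1 / 45 * G ^ 2 : ℝ)) : ℂ) = q + (V - V') := by rw [← h]; push_cast; ring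
  have h2 := congrArg Complex.re h1
  rw [Complex.ofReal_re] at h2
  rw [h2]; simp

theorem hasSum_T {E : ℝ} {x y : ℕ → ℂ} (h : EPair β₁ E x y) :
    HasSum (fun m => ‖LT ww (ZZ x (m + 3)) (ZZ x (m + 4)) (ZZ x (m + 5)) (ZZ x (m + 6))
      (ZZ x (m + 7))‖ ^ 2) (E ^ 2 * ∑' n, ‖y n‖ ^ 2) := by
  have h1 := h.sy.hasSum.mul_left (E ^ 2)
  have e : ∀ m, ‖LT ww (ZZ x (m + 3)) (ZZ x (m + 4)) (ZZ x (m + 5)) (ZZ x (m + 6))
      (ZZ x (m + 7))‖ ^ 2 = E ^ 2 * ‖y m‖ ^ 2 := ?_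
  · simpa only [e] using h1
  intro m
  rw [LT_eq, h.eqx, norm_mul, norm_mul, norm_pow, norm_pow, ga_norm, ga'_norm, norm_mul,
    Complex.norm_real, one_pow, one_pow, one_mul, one_mul, mul_pow, Real.norm_eq_abs, sq_abs]

theorem hasSum_S {E : ℝ} {x y : ℕ → ℂ} (h : EPair β₁ E x y) :
    HasSum (fun m => ‖LS ww (ZZ y (m + 3)) (ZZ y (m + 4)) (ZZ y (m + 5)) (ZZ y (m + 6))
      (ZZ y (m + 7))‖ ^ 2) (E ^ 2 * ∑' n, ‖x n‖ ^ 2) := by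
  have h1 := h.sx.hasSum.mul_left (E ^ 2)
  have e : ∀ m, ‖LS ww (ZZ y (m + 3)) (ZZ y (m + 4)) (ZZ y (m + 5)) (ZZ y (m + 6))
      (ZZ y (m + 7))‖ ^ 2 = E ^ 2 * ‖x m‖ ^ 2 := ?_
  · simpa only [e] using h1
  intro m
  rw [LS_eq, h.eqy, norm_mul, norm_pow, ga'_norm, norm_mul,
    Complex.norm_real, one_pow, one_mul, mul_pow, Real.norm_eq_abs, sq_abs]

theorem hasSum_G {x : ℕ → ℂ} (hx : Summable fun n => ‖x n‖ ^ 2) :
    HasSum (fun n => 1 / 45 * ‖ZZ x (n + 3 + 2)‖ ^ 2) (1 / 45 * ∑' n, ‖x n‖ ^ 2) := by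
  have h1 := hx.hasSum.mul_left (1 / 45)
  have e : ∀ m, 1 / 45 * ‖ZZ x (m + 3 + 2)‖ ^ 2 = 1 / 45 * ‖x m‖ ^ 2 := by
    intro m
    rw [show m + 3 + 2 = m + 5 from rfl, ZZ_norm]
  simpa only [e] using h1

theorem Z0 (x : ℕ → ℂ) : ZZ x 0 = 0 := ZZ_lt x 0 (by norm_num)
theorem Z1 (x : ℕ → ℂ) : ZZ x 1 = 0 := ZZ_lt x 1 (by norm_num)
theorem Z2 (x : ℕ → ℂ) : ZZ x 2 = 0 := ZZ_lt x 2 (by norm_num)
theorem Z3 (x : ℕ → ℂ) : ZZ x 3 = 0 := ZZ_lt x 3 (by norm_num)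
theorem Z4 (x : ℕ → ℂ) : ZZ x 4 = 0 := ZZ_lt x 4 (by norm_num)

theorem re_bd (P Q S K : ℝ) (c : ℝ)
    (h : (89 / 50 : ℂ) * (P : ℂ) ^ 2 + (89 / 50) * (Q : ℂ) ^ 2 + (1 / 500) * (P : ℂ) ^ 2 - (P : ℂ) ^ 2
      - (S : ℂ) ^ 2 = (39 / 50) * (K : ℂ) ^ 2 + (c : ℂ) * (P : ℂ) ^ 2) (hc : 0 ≤ c) :
    P ^ 2 + S ^ 2 ≤ 89 / 50 * P ^ 2 + 89 / 50 * Q ^ 2 + 1 / 500 * P ^ 2 := by
  have h1 : ((89 / 50 * P ^ 2 + 89 / 50 * Q ^ 2 + 1 / 500 * P ^ 2 - P ^ 2 - S ^ 2 : ℝ) : ℂ)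
      = ((39 / 50 * K ^ 2 + c * P ^ 2 : ℝ) : ℂ) := by push_cast; rw [h]
  have h2 := Complex.ofReal_injective h1
  have h3 : 0 ≤ c * P ^ 2 := mul_nonneg hc (sq_nonneg _)
  nlinarith [sq_nonneg K]


theorem cert_T {E : ℝ} {x y : ℕ → ℂ} (h : EPair β₁ E x y) :
    1 / 45 * ∑' n, ‖x n‖ ^ 2 ≤ E ^ 2 * ∑' n, ‖y n‖ ^ 2 := by
  set Vf : ℂ → ℂ → ℂ → ℂ → ℂ := fun z0 z1 z2 z3 => V1 ww z0 z1 z2 z3 ((starRingEnd ℂ) z0) ((starRingEnd ℂ) z1) ((starRingEnd ℂ) z2) ((starRingEnd ℂ) z3)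
    with hVf
  refine key_bound
    (fun n => ‖LT ww (ZZ x n) (ZZ x (n + 1)) (ZZ x (n + 2)) (ZZ x (n + 3)) (ZZ x (n + 4))‖ ^ 2)
    (fun n => 1 / 45 * ‖ZZ x (n + 2)‖ ^ 2)
    (fun n => (qform ww (ZZ x n) (ZZ x (n + 1)) (ZZ x (n + 2)) (ZZ x (n + 3)) (ZZ x (n + 4))
      ((starRingEnd ℂ) (ZZ x n)) ((starRingEnd ℂ) (ZZ x (n + 1))) ((starRingEnd ℂ) (ZZ x (n + 2))) ((starRingEnd ℂ) (ZZ x (n + 3)))
      ((starRingEnd ℂ) (ZZ x (n + 4)))).re)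
    (fun n => (Vf (ZZ x n) (ZZ x (n + 1)) (ZZ x (n + 2)) (ZZ x (n + 3))).re)
    ?_ ?_ ?_ ?_ ?_ _ _ (hasSum_T h) (hasSum_G h.sx)
  · intro n
    apply re_sub_real
    have := id1 ww (ZZ x n) (ZZ x (n + 1)) (ZZ x (n + 2)) (ZZ x (n + 3)) (ZZ x (n + 4))
      ((starRingEnd ℂ) (ZZ x n)) ((starRingEnd ℂ) (ZZ x (n + 1))) ((starRingEnd ℂ) (ZZ x (n + 2))) ((starRingEnd ℂ) (ZZ x (n + 3)))
      ((starRingEnd ℂ) (ZZ x (n + 4))) ww_sq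
    rw [← ww_conj, ← LT_conj, Complex.mul_conj', Complex.mul_conj'] at this
    exact this
  · intro n
    beta_reduce
    rw [qform_eq]
    positivity
  · simp only [hVf, zero_add, Z0, Z1, Z2, Z3]
    simp [V1]
  · refine V_tendsto h.sx Vf ?_ ?_
    · simp only [hVf, V1]; fun_prop
    · simp [hVf, V1]
  · simp only [zero_add, Nat.reduceAdd, Z0, Z1, Z2, Z3, Z4, qform_eq]
    set A := ZZ x 5
    set B := ZZ x 6
    have b1 := bd1 ww A B ((starRingEnd ℂ) A) ((starRingEnd ℂ) B) ww_sq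
    rw [← ww_conj, ← bd1_k_conj] at b1
    have hv : (starRingEnd ℂ) B - ((8 / 23) + (-2 / 25) * ww) * (starRingEnd ℂ) A
        = (starRingEnd ℂ) (B - ((8 / 23) + (2 / 25) * ww) * A) := by
      simp only [map_sub, map_mul, map_add, map_div₀, map_ofNat, ww_conj]; ring
    rw [hv, Complex.mul_conj', Complex.mul_conj', Complex.mul_conj', Complex.mul_conj'] at b1
    have b2 := re_bd ‖A‖ ‖B - ((8 / 23) + (2 / 25) * ww) * A‖ ‖B‖ ‖bd1_k ww A B‖ (5935783 / 17192500)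
      (by push_cast; exact b1) (by norm_num)
    have e1 : ‖LT ww 0 0 0 0 A‖ ^ 2 = ‖A‖ ^ 2 := by
      have : LT ww 0 0 0 0 A = gb * A := by simp only [LT, gb]; ring
      rw [this, norm_mul, gb_norm, one_mul]
    have e2 : ‖LT ww 0 0 0 A B‖ ^ 2 = ‖B‖ ^ 2 := by
      have : LT ww 0 0 0 A B = gb * B := by simp only [LT, gb]; ring
      rw [this, norm_mul, gb_norm, one_mul]
    have e0 : LT ww 0 0 0 0 0 = 0 := by simp [LT]
    have l3 : Lf3 ww 0 0 0 A B = B - ((8 / 23) + (2 / 25) * ww) * A := by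
      simp only [Lf3]; ring
    have l3' : Lf3 ww 0 0 0 0 A = A := by simp only [Lf3]; ring
    have l2 : Lf2 ww 0 0 0 A B = A := by simp only [Lf2]; ring
    rw [e0, e1, e2, l3, l3', l2]
    simp only [norm_zero]
    have p1 : 0 ≤ ‖Lf3 ww 0 0 0 0 0‖ ^ 2 := sq_nonneg _
    have p2 : 0 ≤ ‖Lf2 ww 0 0 0 0 0‖ ^ 2 := sq_nonneg _
    have p3 : 0 ≤ ‖Lf1 ww 0 0 0 0 0‖ ^ 2 := sq_nonneg _
    have p4 : 0 ≤ ‖Lf0 ww 0 0 0 0 0‖ ^ 2 := sq_nonneg _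
    have p5 : 0 ≤ ‖Lf2 ww 0 0 0 0 A‖ ^ 2 := sq_nonneg _
    have p6 : 0 ≤ ‖Lf1 ww 0 0 0 0 A‖ ^ 2 := sq_nonneg _
    have p7 : 0 ≤ ‖Lf0 ww 0 0 0 0 A‖ ^ 2 := sq_nonneg _
    have p8 : 0 ≤ ‖Lf1 ww 0 0 0 A B‖ ^ 2 := sq_nonneg _
    have p9 : 0 ≤ ‖Lf0 ww 0 0 0 A B‖ ^ 2 := sq_nonneg _
    nlinarith

theorem cert_S {E : ℝ} {x y : ℕ → ℂ} (h : EPair β₁ E x y) :
    1 / 45 * ∑' n, ‖y n‖ ^ 2 ≤ E ^ 2 * ∑' n, ‖x n‖ ^ 2 := by
  set Vf : ℂ → ℂ → ℂ → ℂ → ℂ := fun z0 z1 z2 z3 => V2 ww z0 z1 z2 z3 ((starRingEnd ℂ) z0) ((starRingEnd ℂ) z1) ((starRingEnd ℂ) z2) ((starRingEnd ℂ) z3)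
    with hVf
  refine key_bound
    (fun n => ‖LS ww (ZZ y n) (ZZ y (n + 1)) (ZZ y (n + 2)) (ZZ y (n + 3)) (ZZ y (n + 4))‖ ^ 2)
    (fun n => 1 / 45 * ‖ZZ y (n + 2)‖ ^ 2)
    (fun n => (qform ww (ZZ y n) (ZZ y (n + 1)) (ZZ y (n + 2)) (ZZ y (n + 3)) (ZZ y (n + 4))
      ((starRingEnd ℂ) (ZZ y n)) ((starRingEnd ℂ) (ZZ y (n + 1))) ((starRingEnd ℂ) (ZZ y (n + 2))) ((starRingEnd ℂ) (ZZ y (n + 3)))
      ((starRingEnd ℂ) (ZZ y (n + 4)))).re)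
    (fun n => (Vf (ZZ y n) (ZZ y (n + 1)) (ZZ y (n + 2)) (ZZ y (n + 3))).re)
    ?_ ?_ ?_ ?_ ?_ _ _ (hasSum_S h) (hasSum_G h.sy)
  · intro n
    apply re_sub_real
    have := id2 ww (ZZ y n) (ZZ y (n + 1)) (ZZ y (n + 2)) (ZZ y (n + 3)) (ZZ y (n + 4))
      ((starRingEnd ℂ) (ZZ y n)) ((starRingEnd ℂ) (ZZ y (n + 1))) ((starRingEnd ℂ) (ZZ y (n + 2))) ((starRingEnd ℂ) (ZZ y (n + 3)))
      ((starRingEnd ℂ) (ZZ y (n + 4))) ww_sq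
    rw [← ww_conj, ← LS_conj, Complex.mul_conj', Complex.mul_conj'] at this
    exact this
  · intro n
    beta_reduce
    rw [qform_eq]
    positivity
  · simp only [hVf, zero_add, Z0, Z1, Z2, Z3]
    simp [V2]
  · refine V_tendsto h.sy Vf ?_ ?_
    · simp only [hVf, V2]; fun_prop
    · simp [hVf, V2]
  · simp only [zero_add, Nat.reduceAdd, Z0, Z1, Z2, Z3, Z4, qform_eq]
    set A := ZZ y 5
    set B := ZZ y 6
    have b1 := bd2 ww A B ((starRingEnd ℂ) A) ((starRingEnd ℂ) B) ww_sq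
    rw [← ww_conj, ← bd2_k_conj] at b1
    have hv : (starRingEnd ℂ) B - ((8 / 23) + (-2 / 25) * ww) * (starRingEnd ℂ) A
        = (starRingEnd ℂ) (B - ((8 / 23) + (2 / 25) * ww) * A) := by
      simp only [map_sub, map_mul, map_add, map_div₀, map_ofNat, ww_conj]; ring
    have hv2 : (starRingEnd ℂ) B + (-19 / 30 + 7 / 30 * ww) * (starRingEnd ℂ) A
        = (starRingEnd ℂ) (B + (-19 / 30 - 7 / 30 * ww) * A) := by
      simp only [map_sub, map_mul, map_add, map_div₀, map_ofNat, map_neg, ww_conj]; ring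
    rw [hv, hv2, Complex.mul_conj', Complex.mul_conj', Complex.mul_conj', Complex.mul_conj'] at b1
    have b2 := re_bd ‖A‖ ‖B - ((8 / 23) + (2 / 25) * ww) * A‖ ‖B + (-19 / 30 - 7 / 30 * ww) * A‖
      ‖bd2_k ww A B‖ (896027 / 154732500)
      (by push_cast; exact b1) (by norm_num)
    have e1 : LS ww 0 0 0 0 A = A := by simp only [LS]; ring
    have e2 : LS ww 0 0 0 A B = B + (-19 / 30 - 7 / 30 * ww) * A := by simp only [LS]; ring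
    have e0 : LS ww 0 0 0 0 0 = 0 := by simp [LS]
    have l3 : Lf3 ww 0 0 0 A B = B - ((8 / 23) + (2 / 25) * ww) * A := by
      simp only [Lf3]; ring
    have l3' : Lf3 ww 0 0 0 0 A = A := by simp only [Lf3]; ring
    have l2 : Lf2 ww 0 0 0 A B = A := by simp only [Lf2]; ring
    rw [e0, e1, e2, l3, l3', l2]
    simp only [norm_zero]
    have p1 : 0 ≤ ‖Lf3 ww 0 0 0 0 0‖ ^ 2 := sq_nonneg _
    have p2 : 0 ≤ ‖Lf2 ww 0 0 0 0 0‖ ^ 2 := sq_nonneg _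
    have p3 : 0 ≤ ‖Lf1 ww 0 0 0 0 0‖ ^ 2 := sq_nonneg _
    have p4 : 0 ≤ ‖Lf0 ww 0 0 0 0 0‖ ^ 2 := sq_nonneg _
    have p5 : 0 ≤ ‖Lf2 ww 0 0 0 0 A‖ ^ 2 := sq_nonneg _
    have p6 : 0 ≤ ‖Lf1 ww 0 0 0 0 A‖ ^ 2 := sq_nonneg _
    have p7 : 0 ≤ ‖Lf0 ww 0 0 0 0 A‖ ^ 2 := sq_nonneg _
    have p8 : 0 ≤ ‖Lf1 ww 0 0 0 A B‖ ^ 2 := sq_nonneg _
    have p9 : 0 ≤ ‖Lf0 ww 0 0 0 A B‖ ^ 2 := sq_nonneg _
    nlinarith

/-- At `k₁` every eigenvalue satisfies `E² ≥ 1/45`. -/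
theorem cert {E : ℝ} {x y : ℕ → ℂ} (h : EPair β₁ E x y) : 1 / 45 ≤ E ^ 2 := by
  have h1 := cert_T h
  have h2 := cert_S h
  set a := ∑' n, ‖x n‖ ^ 2 with ha
  set b := ∑' n, ‖y n‖ ^ 2 with hb
  have ha0 : 0 ≤ a := tsum_nonneg fun n => sq_nonneg _
  have hb0 : 0 ≤ b := tsum_nonneg fun n => sq_nonneg _
  have hpos : 0 < a + b := by
    rcases h.ne with hx | hy
    · have : ∃ n, x n ≠ 0 := by
        by_contra hcon
        push Not at hcon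
        exact hx (funext hcon)
      obtain ⟨n, hn⟩ := this
      have h3 : 0 < a := h.sx.tsum_pos (fun n => sq_nonneg _) n (by positivity)
      linarith
    · have : ∃ n, y n ≠ 0 := by
        by_contra hcon
        push Not at hcon
        exact hy (funext hcon)
      obtain ⟨n, hn⟩ := this
      have h3 : 0 < b := h.sy.tsum_pos (fun n => sq_nonneg _) n (by positivity)
      linarith
  have h3 : 1 / 45 * (a + b) ≤ E ^ 2 * (a + b) := by linarith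
  exact le_of_mul_le_mul_right h3 hpos

end Pool.Agent.Q205.HC
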