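import Pool.Agent.Q205.HC.HalfLine

/-!
Sum-of-squares certificate at the quasi-momentum `k₁` with
`e^{ik₁} = (5299 + 18247 i√11)/60750`: the half-line operator `T` satisfies
`T*T ≥ 1/45` and `TT* ≥ 1/45`.  (Generated data.)
-/

namespace Pool.Agent.Q205.HC

noncomputable def Lf3 (w z0 z1 z2 z3 z4 : ℂ) : ℂ :=
  (((70 / 267) + (-40 / 267) * w) * (z1 - z0) + ((11 / 25) + (-1 / 15) * w) * (z2 - z1) + ((15 / 23) + (-2 / 25) * w) * (z3 - z2) + ((1)) * (z4 - z3))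

noncomputable def Lf2 (w z0 z1 z2 z3 z4 : ℂ) : ℂ :=
  (((4 / 1035) + (-32 / 207) * w) * (z1 - z0) + ((1)) * (z3 - z2))

noncomputable def Lf1 (w z0 z1 z2 z3 z4 : ℂ) : ℂ :=
  (((4192 / 25875) + (-28124 / 129375) * w) * (z1 - z0) + ((1)) * (z2 - z1))

noncomputable def Lf0 (w z0 z1 z2 z3 z4 : ℂ) : ℂ :=
  (((1)) * (z1 - z0))

noncomputable def LT (w z0 z1 z2 z3 z4 : ℂ) : ℂ :=
  z0 + (-19 / 30 + 7 / 30 * w) * z1 + (-14 / 30 - 8 / 30 * w) * z4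

noncomputable def LS (w z0 z1 z2 z3 z4 : ℂ) : ℂ :=
  z4 + (-19 / 30 - 7 / 30 * w) * z3 + (-14 / 30 + 8 / 30 * w) * z0

noncomputable def qform (w z0 z1 z2 z3 z4 c0 c1 c2 c3 c4 : ℂ) : ℂ :=
  (89 / 50) * (Lf3 w z0 z1 z2 z3 z4 * Lf3 (-w) c0 c1 c2 c3 c4)
  + (1 / 500) * (Lf2 w z0 z1 z2 z3 z4 * Lf2 (-w) c0 c1 c2 c3 c4)
  + (1 / 200) * (Lf1 w z0 z1 z2 z3 z4 * Lf1 (-w) c0 c1 c2 c3 c4)
  + (19258714069 / 33103828125000) * (Lf0 w z0 z1 z2 z3 z4 * Lf0 (-w) c0 c1 c2 c3 c4)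

noncomputable def V1 (w z0 z1 z2 z3 c0 c1 c2 c3 : ℂ) : ℂ :=
  ((-51700223 / 119025000)) * (c0 * z0)
  + ((6207771 / 13225000) + (-472297 / 3234375) * w) * (c0 * z1)
  + ((88831 / 646875) + (320719 / 6468750) * w) * (c0 * z2)
  + ((-407 / 5625) + (146 / 1125) * w) * (c0 * z3)
  + ((6207771 / 13225000) + (472297 / 3234375) * w) * (c1 * z0)
  + ((-735274829 / 595125000)) * (c1 * z1)
  + ((50650339 / 99187500) + (-194999 / 1078125) * w) * (c1 * z2)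
  + ((5429 / 14375) + (89 / 3750) * w) * (c1 * z3)
  + ((88831 / 646875) + (-320719 / 6468750) * w) * (c2 * z0)
  + ((50650339 / 99187500) + (194999 / 1078125) * w) * (c2 * z1)
  + ((-37118003 / 33062500)) * (c2 * z2)
  + ((356 / 575) + (-89 / 625) * w) * (c2 * z3)
  + ((-407 / 5625) + (-146 / 1125) * w) * (c3 * z0)
  + ((5429 / 14375) + (-89 / 3750) * w) * (c3 * z1)
  + ((356 / 575) + (89 / 625) * w) * (c3 * z2)
  + ((-39 / 50)) * (c3 * z3)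

noncomputable def V2 (w z0 z1 z2 z3 c0 c1 c2 c3 : ℂ) : ℂ :=
  ((-51700223 / 119025000)) * (c0 * z0)
  + ((-6504187 / 39675000) + (564781 / 6468750) * w) * (c0 * z1)
  + ((88831 / 646875) + (320719 / 6468750) * w) * (c0 * z2)
  + ((1187 / 3750) + (-37 / 250) * w) * (c0 * z3)
  + ((-6504187 / 39675000) + (-564781 / 6468750) * w) * (c1 * z0)
  + ((-140149829 / 595125000)) * (c1 * z1)
  + ((-4056137 / 33062500) + (37709 / 718750) * w) * (c1 * z2)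
  + ((5429 / 14375) + (89 / 3750) * w) * (c1 * z3)
  + ((88831 / 646875) + (-320719 / 6468750) * w) * (c2 * z0)
  + ((-4056137 / 33062500) + (-37709 / 718750) * w) * (c2 * z1)
  + ((-4055503 / 33062500)) * (c2 * z2)
  + ((-49 / 3450) + (341 / 3750) * w) * (c2 * z3)
  + ((1187 / 3750) + (37 / 250) * w) * (c3 * z0)
  + ((5429 / 14375) + (-89 / 3750) * w) * (c3 * z1)
  + ((-49 / 3450) + (-341 / 3750) * w) * (c3 * z2)
  + ((-39 / 50)) * (c3 * z3)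

theorem id1 (w z0 z1 z2 z3 z4 c0 c1 c2 c3 c4 : ℂ) (hw : w ^ 2 = -11) :
    LT w z0 z1 z2 z3 z4 * LT (-w) c0 c1 c2 c3 c4 - (1 / 45) * (z2 * c2)
      = qform w z0 z1 z2 z3 z4 c0 c1 c2 c3 c4
        + (V1 w z1 z2 z3 z4 c1 c2 c3 c4 - V1 w z0 z1 z2 z3 c0 c1 c2 c3) := by
  unfold qform LT V1 Lf3 Lf2 Lf1 Lf0
  linear_combination ((1498391923058 / 37241806640625) * (c0 * z0) + (-836315360558 / 37241806640625) * (c0 * z1) + (4 / 1125) * (c0 * z2) + (-8 / 375) * (c0 * z3) + (-836315360558 / 37241806640625) * (c1 * z0) + (-6234986417143 / 148967226562500) * (c1 * z1) + (-37 / 18750) * (c1 * z2) + (37 / 3125) * (c1 * z3) + (14 / 225) * (c1 * z4) + (4 / 1125) * (c2 * z0) + (-37 / 18750) * (c2 * z1) + (89 / 281250) * (c2 * z2) + (-89 / 46875) * (c2 * z3) + (-8 / 375) * (c3 * z0) + (37 / 3125) * (c3 * z1) + (-89 / 46875) * (c3 * z2) + (178 / 15625) * (c3 * z3) + (14 / 225) * (c4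 * z1) + (-16 / 225) * (c4 * z4)) * hw

theorem id2 (w z0 z1 z2 z3 z4 c0 c1 c2 c3 c4 : ℂ) (hw : w ^ 2 = -11) :
    LS w z0 z1 z2 z3 z4 * LS (-w) c0 c1 c2 c3 c4 - (1 / 45) * (z2 * c2)
      = qform w z0 z1 z2 z3 z4 c0 c1 c2 c3 c4
        + (V2 w z1 z2 z3 z4 c1 c2 c3 c4 - V2 w z0 z1 z2 z3 c0 c1 c2 c3) := by
  unfold qform LS V2 Lf3 Lf2 Lf1 Lf0
  linear_combination ((-1149914326942 / 37241806640625) * (c0 * z0) + (-836315360558 / 37241806640625) * (c0 * z1) + (4 / 1125) * (c0 * z2) + (46 / 1125) * (c0 * z3) + (-836315360558 / 37241806640625) * (c1 * z0) + (937725736741 / 74483613281250) * (c1 * z1) + (-37 / 18750) * (c1 * z2) + (37 / 3125) * (c1 * z3) + (4 / 1125) * (c2 * z0) + (-37 / 18750) * (c2 * z1) + (89 / 281250) * (c2 * z2) + (-89 / 46875) * (c2 * z3) + (46 / 1125) * (c3 * z0) + (37 / 3125) * (c3 * z1) + (-89 / 46875) * (c3 * z2) + (-24217 / 562500) * (c3 * z3)) *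 hw

noncomputable def bd1_k (w A B : ℂ) : ℂ := B - ((712 / 897) + (178 / 975) * w) * A

theorem bd1 (w A B cA cB : ℂ) (hw : w ^ 2 = -11) :
    (89 / 50) * (A * cA) + (89 / 50) * ((B - ((8 / 23) + (2 / 25) * w) * A) * (cB - ((8 / 23) + (-2 / 25) * w) * cA)) + (1 / 500) * (A * cA) - A * cA
      - (B) * (cB)
      = (39 / 50) * (bd1_k w A B * bd1_k (-w) cA cB) + (5935783 / 17192500) * (A * cA) := by
  unfold bd1_k
  linear_combination ((356 / 24375) * (A * cA)) * hw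

noncomputable def bd2_k (w A B : ℂ) : ℂ := B - ((-49 / 2691) + (-341 / 2925) * w) * A

theorem bd2 (w A B cA cB : ℂ) (hw : w ^ 2 = -11) :
    (89 / 50) * (A * cA) + (89 / 50) * ((B - ((8 / 23) + (2 / 25) * w) * A) * (cB - ((8 / 23) + (-2 / 25) * w) * cA)) + (1 / 500) * (A * cA) - A * cA
      - (B + (-19 / 30 - 7 / 30 * w) * A) * (cB + (-19 / 30 + 7 / 30 * w) * cA)
      = (39 / 50) * (bd2_k w A B * bd2_k (-w) cA cB) + (896027 / 154732500) * (A * cA) := by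
  unfold bd2_k
  linear_combination ((47081 / 877500) * (A * cA)) * hw

theorem Lf3_conj (w z0 z1 z2 z3 z4 : ℂ) : (starRingEnd ℂ) (Lf3 w z0 z1 z2 z3 z4)
    = Lf3 ((starRingEnd ℂ) w) ((starRingEnd ℂ) z0) ((starRingEnd ℂ) z1) ((starRingEnd ℂ) z2)
      ((starRingEnd ℂ) z3) ((starRingEnd ℂ) z4) := by
  simp only [Lf3, map_add, map_mul, map_sub, map_div₀, map_neg, map_ofNat, map_one]

theorem Lf2_conj (w z0 z1 z2 z3 z4 : ℂ) : (starRingEnd ℂ) (Lf2 w z0 z1 z2 z3 z4)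
    = Lf2 ((starRingEnd ℂ) w) ((starRingEnd ℂ) z0) ((starRingEnd ℂ) z1) ((starRingEnd ℂ) z2)
      ((starRingEnd ℂ) z3) ((starRingEnd ℂ) z4) := by
  simp only [Lf2, map_add, map_mul, map_sub, map_div₀, map_neg, map_ofNat, map_one]

theorem Lf1_conj (w z0 z1 z2 z3 z4 : ℂ) : (starRingEnd ℂ) (Lf1 w z0 z1 z2 z3 z4)
    = Lf1 ((starRingEnd ℂ) w) ((starRingEnd ℂ) z0) ((starRingEnd ℂ) z1) ((starRingEnd ℂ) z2)
      ((starRingEnd ℂ) z3) ((starRingEnd ℂ) z4) := by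
  simp only [Lf1, map_add, map_mul, map_sub, map_div₀, map_neg, map_ofNat, map_one]

theorem Lf0_conj (w z0 z1 z2 z3 z4 : ℂ) : (starRingEnd ℂ) (Lf0 w z0 z1 z2 z3 z4)
    = Lf0 ((starRingEnd ℂ) w) ((starRingEnd ℂ) z0) ((starRingEnd ℂ) z1) ((starRingEnd ℂ) z2)
      ((starRingEnd ℂ) z3) ((starRingEnd ℂ) z4) := by
  simp only [Lf0, map_add, map_mul, map_sub, map_div₀, map_neg, map_ofNat, map_one]

theorem LT_conj (w z0 z1 z2 z3 z4 : ℂ) : (starRingEnd ℂ) (LT w z0 z1 z2 z3 z4)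
    = LT ((starRingEnd ℂ) w) ((starRingEnd ℂ) z0) ((starRingEnd ℂ) z1) ((starRingEnd ℂ) z2)
      ((starRingEnd ℂ) z3) ((starRingEnd ℂ) z4) := by
  simp only [LT, map_add, map_mul, map_sub, map_div₀, map_neg, map_ofNat, map_one]

theorem LS_conj (w z0 z1 z2 z3 z4 : ℂ) : (starRingEnd ℂ) (LS w z0 z1 z2 z3 z4)
    = LS ((starRingEnd ℂ) w) ((starRingEnd ℂ) z0) ((starRingEnd ℂ) z1) ((starRingEnd ℂ) z2)
      ((starRingEnd ℂ) z3) ((starRingEnd ℂ) z4) := by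
  simp only [LS, map_add, map_mul, map_sub, map_div₀, map_neg, map_ofNat, map_one]

theorem bd1_k_conj (w A B : ℂ) : (starRingEnd ℂ) (bd1_k w A B)
    = bd1_k ((starRingEnd ℂ) w) ((starRingEnd ℂ) A) ((starRingEnd ℂ) B) := by
  simp only [bd1_k, map_add, map_mul, map_sub, map_div₀, map_neg, map_ofNat, map_one]

theorem bd2_k_conj (w A B : ℂ) : (starRingEnd ℂ) (bd2_k w A B)
    = bd2_k ((starRingEnd ℂ) w) ((starRingEnd ℂ) A) ((starRingEnd ℂ) B) := by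
  simp only [bd2_k, map_add, map_mul, map_sub, map_div₀, map_neg, map_ofNat, map_one]

end Pool.Agent.Q205.HC
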