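import Mathlib

/-!
# The honeycomb edge problem: definitions

The plane is `ℂ`, with Euclidean inner product `dot`.
-/

namespace Pool.Agent.Q205.HC

open Set Filter Topology

noncomputable section

/-- Euclidean inner product on the plane `ℂ = ℝ²`. -/
def dot (x y : ℂ) : ℝ := x.re * y.re + x.im * y.im

/-- The first lattice vector `(√3/2, 1/2)`. -/
def vv₁ : ℂ := ⟨√3 / 2, 1 / 2⟩

/-- The second lattice vector `(√3/2, -1/2)`. -/
def vv₂ : ℂ := ⟨√3 / 2, -1 / 2⟩

/-- A site of the honeycomb: `(m, n, false)` is the A-site `m v₁ + n v₂`, and `(m, n, true)` is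
the B-site `(1/√3, 0) + m v₁ + n v₂`. -/
abbrev Site := ℤ × ℤ × Bool

/-- Position of a site in the plane. -/
def pos (s : Site) : ℂ := s.1 * vv₁ + s.2.1 * vv₂ + if s.2.2 then ((1 / √3 : ℝ) : ℂ) else 0

/-- A rational edge: coprime integers `a₁₁, a₁₂`, and a closed half-plane
`{x | t ≤ x · ν}`, `ν ≠ 0`, bounded by a line parallel to `a₁₁ v₁ + a₁₂ v₂`. -/
structure Edge where
  a₁₁ : ℤ
  a₁₂ : ℤ
  coprime : IsCoprime a₁₁ a₁₂
  ν : ℂ
  ν_ne : ν ≠ 0
  perp : dot (a₁₁ * vv₁ + a₁₂ * vv₂) ν = 0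
  t : ℝ

namespace Edge

/-- The period vector of the edge. -/
def v (e : Edge) : ℂ := e.a₁₁ * vv₁ + e.a₁₂ * vv₂

/-- The sites of the honeycomb in the closed half-plane. -/
def sites (e : Edge) : Set Site := {s | e.t ≤ dot (pos s) e.ν}

/-- Translation of a site by `j` times the period vector. -/
def shift (e : Edge) (j : ℤ) (s : Site) : Site := (s.1 + j * e.a₁₁, s.2.1 + j * e.a₁₂, s.2.2)

/-- The edge Hamiltonian: the sum of `ψ` over the sites of the half-plane at distance `1/√3`. -/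
def ham (e : Edge) (ψ : Site → ℂ) (s : Site) : ℂ :=
  ∑ᶠ s' ∈ {s' : Site | s' ∈ e.sites ∧ dist (pos s') (pos s) = 1 / √3}, ψ s'

/-- `F` contains exactly one site of every class of sites of the half-plane modulo the period
vector. -/
def IsPeriod (e : Edge) (F : Set Site) : Prop :=
  F ⊆ e.sites ∧ ∀ s ∈ e.sites, ∃! j : ℤ, e.shift j s ∈ F

/-- `E` is a `k`-edge state eigenvalue.  A function on the sites of the half-plane is extended by
`0` to all sites. -/
def EdgeState (e : Edge) (k : Real.Angle) (E : ℝ) : Prop :=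
  ∃ ψ : Site → ℂ, (∀ s, s ∉ e.sites → ψ s = 0) ∧ ψ ≠ 0 ∧
    (∀ s ∈ e.sites, ψ (e.shift 1 s) = (k.toCircle : ℂ) * ψ s) ∧
    (∃ F, e.IsPeriod F ∧ Summable fun s : F => ‖ψ s‖ ^ 2) ∧
    ∀ s ∈ e.sites, e.ham ψ s = E * ψ s

end Edge

/-- Open arcs of the circle `ℝ/2πℤ` (the whole circle included). -/
def IsArc (I : Set Real.Angle) : Prop :=
  I = univ ∨ ∃ p q : ℝ, p < q ∧ q ≤ p + 2 * Real.pi ∧ I = (fun x : ℝ => (x : Real.Angle)) '' Ioo p q

namespace Edge

/-- `E` is a continuous function on the open arc `I` whose values are edge state eigenvalues. -/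
def IsCurve (e : Edge) (I : Set Real.Angle) (E : Real.Angle → ℝ) : Prop :=
  IsArc I ∧ ContinuousOn E I ∧ ∀ k ∈ I, e.EdgeState k (E k)

/-- An edge state curve: one that has no continuous extension to a larger arc. -/
def IsEdgeStateCurve (e : Edge) (I : Set Real.Angle) (E : Real.Angle → ℝ) : Prop :=
  e.IsCurve I E ∧ ∀ I' E', e.IsCurve I' E' → I ⊆ I' → (∀ k ∈ I, E' k = E k) → I' = I

end Edge

/-- Dirac points. -/
def IsDirac (κ : ℂ) : Prop :=
  1 + Complex.exp (dot κ vv₁ * Complex.I) + Complex.exp (dot κ vv₂ * Complex.I) = 0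

namespace Edge

/-- `k` is the quasi-momentum of a band crossing `(k, 0)`. -/
def IsCrossing (e : Edge) (k : Real.Angle) : Prop := ∃ κ, IsDirac κ ∧ k = (dot κ e.v : ℝ)

end Edge

/-- The assertion of the problem: every edge state curve of every rational edge emerges from and
terminates in a band crossing. -/
def BandCrossingClaim : Prop :=
  ∀ (e : Edge) (I : Set Real.Angle) (E : Real.Angle → ℝ), e.IsEdgeStateCurve I E →
    I ≠ univ ∧ ∀ p q : ℝ, p < q → q ≤ p + 2 * Real.pi →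
      I = (fun x : ℝ => (x : Real.Angle)) '' Ioo p q →
        (e.IsCrossing p ∧ Tendsto (fun x : ℝ => E x) (𝓝[>] p) (𝓝 0)) ∧
        (e.IsCrossing q ∧ Tendsto (fun x : ℝ => E x) (𝓝[<] q) (𝓝 0))

end

end Pool.Agent.Q205.HC
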