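import Pool.Agent.Q205.HC.Sos0

namespace Pool.Agent.Q205.HC
open Filter Topology

section general

variable {H : Type*} [NormedAddCommGroup H] [InnerProductSpace ℂ H]

theorem exists_minimizer [CompleteSpace H] (T : H →L[ℂ] H) (P : H →L[ℂ] ℂ × ℂ) (c μ : ℝ)
    (hc : ∀ x, c * ‖x‖ ^ 2 ≤ ‖T x‖ ^ 2 + ‖P x‖ ^ 2)
    (hmin : ∀ x, μ ^ 2 * ‖x‖ ^ 2 ≤ ‖T x‖ ^ 2)
    (hseq : ∀ ε > 0, ∃ x, ‖x‖ = 1 ∧ ‖T x‖ < μ + ε) (hμ0 : 0 ≤ μ) (hμ : μ ^ 2 < c) :
    ∃ x, ‖x‖ = 1 ∧ ‖T x‖ = μ := by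
  choose f hf using fun n : ℕ => hseq (1 / ((n : ℝ) + 1)) (by positivity)
  have hball : ∀ n, P (f n) ∈ Metric.closedBall (0 : ℂ × ℂ) ‖P‖ := by
    intro n
    rw [mem_closedBall_zero_iff]
    calc ‖P (f n)‖ ≤ ‖P‖ * ‖f n‖ := P.le_opNorm _
      _ = ‖P‖ := by rw [(hf n).1, mul_one]
  obtain ⟨v, _, φ, hφ, hv⟩ := (isCompact_closedBall (0 : ℂ × ℂ) ‖P‖).tendsto_subseq hball
  set ψ : ℕ → H := f ∘ φ with hψ
  have hψ1 : ∀ n, ‖ψ n‖ = 1 := fun n => (hf _).1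
  have hle : ∀ n, μ ≤ ‖T (ψ n)‖ := by
    intro n
    have h1 := hmin (ψ n)
    rw [hψ1, one_pow, mul_one] at h1
    exact (pow_le_pow_iff_left₀ hμ0 (norm_nonneg _) two_ne_zero).mp h1
  have ha : Tendsto (fun n => ‖T (ψ n)‖) atTop (𝓝 μ) := by
    have h1 : Tendsto (fun n : ℕ => μ + 1 / ((n : ℝ) + 1)) atTop (𝓝 (μ + 0)) :=
      tendsto_const_nhds.add tendsto_one_div_add_atTop_nhds_zero_nat
    rw [add_zero] at h1
    have h2 := h1.comp hφ.tendsto_atTop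
    exact tendsto_of_tendsto_of_tendsto_of_le_of_le tendsto_const_nhds h2 hle
      fun n => ((hf (φ n)).2).le
  have hkey : ∀ n m, (c - μ ^ 2) * ‖ψ n - ψ m‖ ^ 2
      ≤ 2 * (‖T (ψ n)‖ ^ 2 - μ ^ 2) + 2 * (‖T (ψ m)‖ ^ 2 - μ ^ 2) + ‖P (ψ n) - P (ψ m)‖ ^ 2 := by
    intro n m
    have p1 := parallelogram_law_with_norm ℂ (ψ n) (ψ m)
    have p2 := parallelogram_law_with_norm ℂ (T (ψ n)) (T (ψ m))
    have h1 := hc (ψ n - ψ m)
    have h2 := hmin (ψ n + ψ m)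
    rw [map_sub, map_sub] at h1
    rw [map_add] at h2
    rw [hψ1, hψ1] at p1
    nlinarith
  have hcau : CauchySeq ψ := by
    rw [cauchySeq_iff_tendsto_dist_atTop_0]
    have hd : 0 < c - μ ^ 2 := by linarith
    have hPc : CauchySeq (fun n => P (ψ n)) := hv.cauchySeq
    rw [cauchySeq_iff_tendsto_dist_atTop_0] at hPc
    have hsq : Tendsto (fun n => 2 * (‖T (ψ n)‖ ^ 2 - μ ^ 2)) atTop (𝓝 0) := by
      have := ((ha.pow 2).sub_const (μ ^ 2)).const_mul 2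
      simpa using this
    have hg : Tendsto (fun n : ℕ × ℕ => (2 * (‖T (ψ n.1)‖ ^ 2 - μ ^ 2) + 2 * (‖T (ψ n.2)‖ ^ 2 - μ ^ 2)
        + dist (P (ψ n.1)) (P (ψ n.2)) ^ 2) / (c - μ ^ 2)) atTop (𝓝 0) := by
      have q1 : Tendsto (fun n : ℕ × ℕ => 2 * (‖T (ψ n.1)‖ ^ 2 - μ ^ 2)) atTop (𝓝 0) := by
        rw [← prod_atTop_atTop_eq]; exact hsq.comp tendsto_fst
      have q2 : Tendsto (fun n : ℕ × ℕ => 2 * (‖T (ψ n.2)‖ ^ 2 - μ ^ 2)) atTop (𝓝 0) := by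
        rw [← prod_atTop_atTop_eq]; exact hsq.comp tendsto_snd
      have := ((q1.add q2).add (hPc.pow 2)).div_const (c - μ ^ 2)
      simpa using this
    have hs := (Real.continuous_sqrt.tendsto 0).comp hg
    rw [Real.sqrt_zero] at hs
    refine squeeze_zero (fun _ => dist_nonneg) (fun n => ?_) hs
    simp only [Function.comp_apply]
    apply Real.le_sqrt_of_sq_le
    rw [le_div_iff₀ hd, dist_eq_norm, dist_eq_norm, mul_comm]
    exact hkey n.1 n.2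
  obtain ⟨x, hx⟩ := cauchySeq_tendsto_of_complete hcau
  refine ⟨x, ?_, ?_⟩
  · have h1 := hx.norm
    simp only [hψ1] at h1
    exact (tendsto_nhds_unique tendsto_const_nhds h1).symm
  · have h1 := ((T.continuous.tendsto x).comp hx).norm
    exact tendsto_nhds_unique h1 ha

theorem eigen_of_min (T : H →L[ℂ] H) (μ : ℝ) (hmin : ∀ x, μ ^ 2 * ‖x‖ ^ 2 ≤ ‖T x‖ ^ 2) (x : H)
    (hx : ‖T x‖ ^ 2 = μ ^ 2 * ‖x‖ ^ 2) (h : H) :
    inner ℂ (T h) (T x) = (μ : ℂ) ^ 2 * inner ℂ h x := by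
  have key : ∀ h : H, (inner ℂ (T h) (T x) - (μ : ℂ) ^ 2 * inner ℂ h x).re = 0 := by
    intro h
    have hq : ∀ t : ℝ, 0 ≤ (‖T h‖ ^ 2 - μ ^ 2 * ‖h‖ ^ 2) * (t * t)
        + (2 * (inner ℂ (T h) (T x) - (μ : ℂ) ^ 2 * inner ℂ h x).re) * t + 0 := by
      intro t
      have h1 := hmin (x + (t : ℂ) • h)
      have e1 : ‖x + (t : ℂ) • h‖ ^ 2 = ‖x‖ ^ 2 + 2 * (t * (inner ℂ h x).re) + t ^ 2 * ‖h‖ ^ 2 := by
        rw [@norm_add_sq ℂ, inner_smul_right, norm_smul, mul_pow, Complex.norm_real, Real.norm_eq_abs,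
          sq_abs]
        have : RCLike.re ((t : ℂ) * inner ℂ x h) = t * (inner ℂ h x).re := by
          have hc : (inner ℂ x h).re = (inner ℂ h x).re := by
            rw [← inner_conj_symm x h, Complex.conj_re]
          rw [RCLike.re_to_complex, Complex.re_ofReal_mul, hc]
        rw [this]
      have e2 : ‖T (x + (t : ℂ) • h)‖ ^ 2
          = ‖T x‖ ^ 2 + 2 * (t * (inner ℂ (T h) (T x)).re) + t ^ 2 * ‖T h‖ ^ 2 := by
        rw [map_add, map_smul, @norm_add_sq ℂ, inner_smul_right, norm_smul, mul_pow,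
          Complex.norm_real, Real.norm_eq_abs, sq_abs]
        have : RCLike.re ((t : ℂ) * inner ℂ (T x) (T h)) = t * (inner ℂ (T h) (T x)).re := by
          have hc : (inner ℂ (T x) (T h)).re = (inner ℂ (T h) (T x)).re := by
            rw [← inner_conj_symm (T x) (T h), Complex.conj_re]
          rw [RCLike.re_to_complex, Complex.re_ofReal_mul, hc]
        rw [this]
      rw [e1, e2, hx] at h1
      have e3 : (inner ℂ (T h) (T x) - (μ : ℂ) ^ 2 * inner ℂ h x).re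
          = (inner ℂ (T h) (T x)).re - μ ^ 2 * (inner ℂ h x).re := by
        rw [← Complex.ofReal_pow, Complex.sub_re, Complex.re_ofReal_mul]
      rw [e3]
      nlinarith
    have hd := discrim_le_zero hq
    rw [discrim] at hd
    have : (2 * (inner ℂ (T h) (T x) - (μ : ℂ) ^ 2 * inner ℂ h x).re) ^ 2 ≤ 0 := by linarith
    have h0 := pow_eq_zero_iff (two_ne_zero) |>.mp (le_antisymm this (sq_nonneg _))
    linarith
  have h1 := key h
  have h2 := key (Complex.I • h)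
  rw [map_smul, inner_smul_left, inner_smul_left] at h2
  have h3 : (starRingEnd ℂ) Complex.I * inner ℂ (T h) (T x)
      - (μ : ℂ) ^ 2 * ((starRingEnd ℂ) Complex.I * inner ℂ h x)
      = -Complex.I * (inner ℂ (T h) (T x) - (μ : ℂ) ^ 2 * inner ℂ h x) := by
    rw [Complex.conj_I]; ring
  rw [h3] at h2
  have h4 : (inner ℂ (T h) (T x) - (μ : ℂ) ^ 2 * inner ℂ h x).im = 0 := by
    have : (-Complex.I * (inner ℂ (T h) (T x) - (μ : ℂ) ^ 2 * inner ℂ h x)).re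
        = (inner ℂ (T h) (T x) - (μ : ℂ) ^ 2 * inner ℂ h x).im := by
      rw [Complex.mul_re]; simp
    rw [this] at h2
    exact h2
  have h5 : inner ℂ (T h) (T x) - (μ : ℂ) ^ 2 * inner ℂ h x = 0 := Complex.ext h1 h4
  exact sub_eq_zero.mp h5

end general

end Pool.Agent.Q205.HC
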