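import Pool.Agent.Q205.HC.Exist

namespace Pool.Agent.Q205.HC
open Filter Topology

/-- `ℓ²(ℕ, ℂ)` -/
noncomputable abbrev HH : Type := lp (fun _ : ℕ => ℂ) 2

theorem memℓp_two_iff (x : ℕ → ℂ) : Memℓp x 2 ↔ Summable fun n => ‖x n‖ ^ 2 := by
  rw [memℓp_gen_iff (by norm_num)]
  simp

theorem HHs (f : HH) : Summable fun n => ‖f n‖ ^ 2 := (memℓp_two_iff _).mp f.2

theorem HHn (f : HH) : ‖f‖ ^ 2 = ∑' n, ‖f n‖ ^ 2 := by
  have h := lp.norm_rpow_eq_tsum (p := 2) (by norm_num) f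
  simpa using h

theorem sh_summable (j : ℕ) {x : ℕ → ℂ} (hx : Summable fun n => ‖x n‖ ^ 2) :
    Summable fun n => ‖sh j x n‖ ^ 2 := by
  rw [← summable_nat_add_iff j]
  simpa [sh] using hx

theorem sh_tsum (j : ℕ) {x : ℕ → ℂ} (hx : Summable fun n => ‖x n‖ ^ 2) :
    ∑' n, ‖sh j x n‖ ^ 2 = ∑' n, ‖x n‖ ^ 2 := by
  rw [← (sh_summable j hx).sum_add_tsum_nat_add j]
  have h1 : ∑ i ∈ Finset.range j, ‖sh j x i‖ ^ 2 = 0 := by
    apply Finset.sum_eq_zero
    intro i hi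
    have := Finset.mem_range.mp hi
    simp [sh, Nat.not_le.mpr this]
  rw [h1, zero_add]
  simp [sh]

/-- right shift -/
noncomputable def shR (j : ℕ) : HH →L[ℂ] HH :=
  LinearMap.mkContinuous
    { toFun := fun f => ⟨sh j f, (memℓp_two_iff _).mpr (sh_summable j (HHs f))⟩
      map_add' := by
        intro f g
        ext n
        simp only [sh, lp.coeFn_add, Pi.add_apply]
        split_ifs <;> simp
      map_smul' := by
        intro c f
        ext n
        simp only [sh, lp.coeFn_smul, Pi.smul_apply]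
        split_ifs <;> simp } 1
    (by
      intro f
      rw [one_mul]
      apply le_of_eq
      have h1 := HHn (⟨sh j f, (memℓp_two_iff _).mpr (sh_summable j (HHs f))⟩ : HH)
      have h2 := HHn f
      have h3 := sh_tsum j (HHs f)
      have h4 : ‖(⟨sh j f, (memℓp_two_iff _).mpr (sh_summable j (HHs f))⟩ : HH)‖ ^ 2 = ‖f‖ ^ 2 := by
        rw [h1, h2]; exact h3
      exact (pow_left_inj₀ (norm_nonneg _) (norm_nonneg _) two_ne_zero).mp h4)

theorem shR_apply (j : ℕ) (f : HH) (n : ℕ) : shR j f n = sh j f n := rfl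

theorem shL_summable (j : ℕ) {x : ℕ → ℂ} (hx : Summable fun n => ‖x n‖ ^ 2) :
    Summable fun n => ‖x (n + j)‖ ^ 2 := (summable_nat_add_iff j).mpr hx

/-- left shift -/
noncomputable def shL (j : ℕ) : HH →L[ℂ] HH :=
  LinearMap.mkContinuous
    { toFun := fun f => ⟨fun n => f (n + j), (memℓp_two_iff _).mpr (shL_summable j (HHs f))⟩
      map_add' := by
        intro f g
        ext n
        rfl
      map_smul' := by
        intro c f
        ext n
        rfl } 1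
    (by
      intro f
      rw [one_mul]
      have h1 := HHn (⟨fun n => f (n + j), (memℓp_two_iff _).mpr (shL_summable j (HHs f))⟩ : HH)
      have h2 := HHn f
      have h3 : ∑' n, ‖f (n + j)‖ ^ 2 ≤ ∑' n, ‖f n‖ ^ 2 := by
        rw [← (HHs f).sum_add_tsum_nat_add j]
        have : 0 ≤ ∑ i ∈ Finset.range j, ‖f i‖ ^ 2 := Finset.sum_nonneg fun i _ => sq_nonneg _
        linarith
      have h4 : ‖(⟨fun n => f (n + j), (memℓp_two_iff _).mpr (shL_summable j (HHs f))⟩ : HH)‖ ^ 2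
          ≤ ‖f‖ ^ 2 := by
        rw [h1, h2]; exact h3
      exact (pow_le_pow_iff_left₀ (norm_nonneg _) (norm_nonneg _) two_ne_zero).mp h4)

theorem shL_apply (j : ℕ) (f : HH) (n : ℕ) : shL j f n = f (n + j) := rfl

theorem shL_norm_le (j : ℕ) (f : HH) : ‖shL j f‖ ≤ ‖f‖ := by
  have h := (shL j).le_opNorm f
  have h2 : ‖shL j‖ ≤ 1 := LinearMap.mkContinuous_norm_le _ (by norm_num) _
  calc ‖shL j f‖ ≤ ‖shL j‖ * ‖f‖ := h
    _ ≤ 1 * ‖f‖ := mul_le_mul_of_nonneg_right h2 (norm_nonneg _)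
    _ = ‖f‖ := one_mul _

theorem shR_norm_le (j : ℕ) (f : HH) : ‖shR j f‖ ≤ ‖f‖ := by
  have h := (shR j).le_opNorm f
  have h2 : ‖shR j‖ ≤ 1 := LinearMap.mkContinuous_norm_le _ (by norm_num) _
  calc ‖shR j f‖ ≤ ‖shR j‖ * ‖f‖ := h
    _ ≤ 1 * ‖f‖ := mul_le_mul_of_nonneg_right h2 (norm_nonneg _)
    _ = ‖f‖ := one_mul _

/-- the half-line operator as a bounded operator -/
noncomputable def TT (β : ℂ) : HH →L[ℂ] HH := shR 1 + shR 2 + β • shL 2

theorem TT_apply (β : ℂ) (f : HH) (n : ℕ) : TT β f n = Tseq β f n := by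
  simp only [TT, Tseq, ContinuousLinearMap.add_apply, ContinuousLinearMap.smul_apply,
    lp.coeFn_add, Pi.add_apply, lp.coeFn_smul, Pi.smul_apply, shR_apply, shL_apply, smul_eq_mul]

theorem TT_diff (β β' : ℂ) (f : HH) : ‖TT β f‖ ≤ ‖TT β' f‖ + ‖β - β'‖ * ‖f‖ := by
  have h : TT β f = TT β' f + (β - β') • shL 2 f := by
    simp only [TT, ContinuousLinearMap.add_apply, ContinuousLinearMap.smul_apply, sub_smul]
    abel
  rw [h]
  refine (norm_add_le _ _).trans ?_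
  rw [norm_smul]
  gcongr
  exact shL_norm_le 2 f

theorem TT_le (β : ℂ) (hβ : ‖β‖ = 1) (f : HH) : ‖TT β f‖ ≤ 3 * ‖f‖ := by
  simp only [TT, ContinuousLinearMap.add_apply, ContinuousLinearMap.smul_apply]
  have h1 := shR_norm_le 1 f
  have h2 := shR_norm_le 2 f
  have h3 : ‖β • shL 2 f‖ ≤ ‖f‖ := by rw [norm_smul, hβ, one_mul]; exact shL_norm_le 2 f
  calc _ ≤ ‖shR 1 f‖ + ‖shR 2 f‖ + ‖β • shL 2 f‖ := norm_add₃_le
    _ ≤ 3 * ‖f‖ := by linarith

/-- first two coordinates -/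
noncomputable def PT : HH →L[ℂ] ℂ × ℂ :=
  (lp.evalCLM ℂ (fun _ : ℕ => ℂ) 2 0).prod (lp.evalCLM ℂ (fun _ : ℕ => ℂ) 2 1)

end Pool.Agent.Q205.HC
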