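import Pool.Agent.Q205.HC.Exist2

namespace Pool.Agent.Q205.HC
open Filter Topology

theorem sos0_HH (f : HH) : 6 / 25 * ‖f‖ ^ 2 ≤ ‖TT 1 f‖ ^ 2 + ‖f 0‖ ^ 2 + ‖f 1‖ ^ 2 := by
  have hT : Summable fun n => ‖Tseq 1 f n‖ ^ 2 := by
    have := HHs (TT 1 f)
    simpa only [TT_apply] using this
  have h := sos0 f (HHs f) hT
  rw [HHn f, HHn (TT 1 f)]
  simpa only [TT_apply] using h

theorem PT_le (f : HH) : ‖f 0‖ ^ 2 + ‖f 1‖ ^ 2 ≤ ‖((2 : ℂ) • PT) f‖ ^ 2 := by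
  have h0 : ‖f 0‖ ≤ ‖PT f‖ := norm_fst_le (PT f)
  have h1 : ‖f 1‖ ≤ ‖PT f‖ := norm_snd_le (PT f)
  rw [ContinuousLinearMap.smul_apply, norm_smul]
  have : ‖(2 : ℂ)‖ = 2 := by simp
  rw [this]
  nlinarith [norm_nonneg (f 0), norm_nonneg (f 1)]

/-- the set of values on the unit sphere -/
def vals (β : ℂ) : Set ℝ := {r | ∃ f : HH, ‖f‖ = 1 ∧ r = ‖TT β f‖}

/-- bottom of the modulus of `T_β` -/
noncomputable def mu (β : ℂ) : ℝ := sInf (vals β)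

theorem vals_bdd (β : ℂ) : BddBelow (vals β) := ⟨0, by rintro _ ⟨f, _, rfl⟩; exact norm_nonneg _⟩

theorem vals_nonempty (β : ℂ) : (vals β).Nonempty := by
  refine ⟨_, lp.single 2 0 (1 : ℂ), ?_, rfl⟩
  rw [lp.norm_single (by norm_num)]; simp

theorem mu_nonneg (β : ℂ) : 0 ≤ mu β := by
  apply le_csInf (vals_nonempty β)
  rintro _ ⟨f, _, rfl⟩
  exact norm_nonneg _

theorem mu_le (β : ℂ) (f : HH) : mu β * ‖f‖ ≤ ‖TT β f‖ := by
  by_cases hf : f = 0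
  · rw [hf]; simp
  have hn : ‖f‖ ≠ 0 := norm_ne_zero_iff.mpr hf
  have h1 : mu β ≤ ‖TT β ((‖f‖⁻¹ : ℂ) • f)‖ := by
    apply csInf_le (vals_bdd β)
    refine ⟨_, ?_, rfl⟩
    rw [norm_smul, norm_inv, Complex.norm_real, norm_norm, inv_mul_cancel₀ hn]
  rw [map_smul, norm_smul, norm_inv, Complex.norm_real, norm_norm] at h1
  have h2 : 0 < ‖f‖ := norm_pos_iff.mpr hf
  rw [inv_mul_eq_div, le_div_iff₀ h2] at h1
  exact h1

theorem mu_le_sq (β : ℂ) (f : HH) : mu β ^ 2 * ‖f‖ ^ 2 ≤ ‖TT β f‖ ^ 2 := by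
  rw [← mul_pow]
  exact pow_le_pow_left₀ (mul_nonneg (mu_nonneg β) (norm_nonneg _)) (mu_le β f) 2

theorem mu_approx (β : ℂ) (ε : ℝ) (hε : 0 < ε) : ∃ f : HH, ‖f‖ = 1 ∧ ‖TT β f‖ < mu β + ε := by
  obtain ⟨r, ⟨f, hf, rfl⟩, hr⟩ := exists_lt_of_csInf_lt (vals_nonempty β)
    (show sInf (vals β) < mu β + ε by unfold mu; linarith)
  exact ⟨f, hf, hr⟩

theorem mu_lip (β β' : ℂ) : mu β ≤ mu β' + ‖β - β'‖ := by
  apply le_of_forall_pos_le_add
  intro ε hε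
  obtain ⟨f, hf, hlt⟩ := mu_approx β' ε hε
  have h1 := mu_le β f
  have h2 := TT_diff β β' f
  rw [hf, mul_one] at h1 h2
  linarith

theorem mu_continuous : Continuous mu := by
  have : LipschitzWith 1 mu := by
    apply LipschitzWith.of_le_add
    intro β β'
    rw [dist_eq_norm]
    exact mu_lip β β'
  exact this.continuous

/-- the trial vector -/
def vv : ℕ → ℂ
  | 0 => 7
  | 1 => -9
  | 2 => 5
  | 3 => -5
  | 4 => 2
  | 5 => 3
  | 6 => -2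
  | 7 => 3
  | 8 => -3
  | _ => 0

theorem vv_zero (n : ℕ) (h : 9 ≤ n) : vv n = 0 := by
  obtain ⟨k, rfl⟩ := Nat.exists_eq_add_of_le h
  rw [add_comm]; rfl

theorem vv_summable : Summable fun n => ‖vv n‖ ^ 2 :=
  summable_of_ne_finset_zero (s := Finset.range 9) (by
    intro n hn
    rw [vv_zero n (by simpa using hn)]; simp)

noncomputable def vH : HH := ⟨vv, (memℓp_two_iff _).mpr vv_summable⟩

theorem vH_norm : ‖vH‖ ^ 2 = 215 := by
  rw [HHn]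
  have : ∀ n, ‖vH n‖ ^ 2 = ‖vv n‖ ^ 2 := fun n => rfl
  simp only [this]
  rw [tsum_eq_sum (s := Finset.range 9)]
  · simp [Finset.sum_range_succ, vv]; norm_num
  · intro n hn
    rw [vv_zero n (by simpa using hn)]; simp

theorem TvH_norm : ‖TT 1 vH‖ ^ 2 = 49 := by
  rw [HHn]
  have : ∀ n, ‖TT 1 vH n‖ ^ 2 = ‖Tseq 1 vv n‖ ^ 2 := by
    intro n; rw [TT_apply]; rfl
  simp only [this]
  rw [tsum_eq_sum (s := Finset.range 11)]
  · simp [Finset.sum_range_succ, vv, Tseq, sh]; norm_num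
  · intro n hn
    have hn' : 11 ≤ n := by simpa using hn
    have h1 : sh 1 vv n = 0 := by rw [sh, if_pos (by omega), vv_zero _ (by omega)]
    have h2 : sh 2 vv n = 0 := by rw [sh, if_pos (by omega), vv_zero _ (by omega)]
    rw [Tseq, h1, h2, vv_zero _ (by omega)]; simp

theorem mu_one_sq : mu 1 ^ 2 ≤ 49 / 215 := by
  have h := mu_le_sq 1 vH
  rw [vH_norm, TvH_norm] at h
  linarith

end Pool.Agent.Q205.HC
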