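import Pool.Agent.Q205.HC.Exist3

namespace Pool.Agent.Q205.HC
open Filter Topology

theorem inner_single (n : ℕ) (f : HH) : inner ℂ (lp.single 2 n (1 : ℂ) : HH) f = f n := by
  rw [lp.inner_single_left]
  simp

theorem TT_single (β : ℂ) (n : ℕ) :
    TT β (lp.single 2 n (1 : ℂ)) = (lp.single 2 (n + 1) (1 : ℂ) : HH) + lp.single 2 (n + 2) (1 : ℂ)
      + β • (if 2 ≤ n then (lp.single 2 (n - 2) (1 : ℂ) : HH) else 0) := by
  ext m
  rw [TT_apply]
  simp only [Tseq, sh, lp.coeFn_add, Pi.add_apply, lp.coeFn_smul, Pi.smul_apply, smul_eq_mul]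
  have hs : ∀ i j : ℕ, (lp.single 2 i (1 : ℂ) : HH) j = if j = i then 1 else 0 := by
    intro i j
    rw [lp.single_apply]
    by_cases h : j = i
    · subst h; simp
    · rw [if_neg h, Pi.single_eq_of_ne h]
  have e1 : (if 1 ≤ m then (lp.single 2 n (1 : ℂ) : HH) (m - 1) else 0)
      = (lp.single 2 (n + 1) (1 : ℂ) : HH) m := by
    rw [hs, hs]
    by_cases h : m = n + 1
    · subst h; simp
    · rw [if_neg h]
      split_ifs with h1 h2
      · omega
      · rfl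
      · rfl
  have e2 : (if 2 ≤ m then (lp.single 2 n (1 : ℂ) : HH) (m - 2) else 0)
      = (lp.single 2 (n + 2) (1 : ℂ) : HH) m := by
    rw [hs, hs]
    by_cases h : m = n + 2
    · subst h; simp
    · rw [if_neg h]
      split_ifs with h1 h2
      · omega
      · rfl
      · rfl
  have e3 : (lp.single 2 n (1 : ℂ) : HH) (m + 2)
      = (if 2 ≤ n then (lp.single 2 (n - 2) (1 : ℂ) : HH) else 0) m := by
    rw [hs]
    by_cases h : 2 ≤ n
    · rw [if_pos h, hs]
      by_cases h2 : m + 2 = n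
      · rw [if_pos h2, if_pos (by omega)]
      · rw [if_neg h2, if_neg (by omega)]
    · rw [if_neg h, if_neg (by omega)]; simp
  rw [e1, e2, e3]

theorem inner_TT_single (β : ℂ) (n : ℕ) (f : HH) :
    inner ℂ (TT β (lp.single 2 n (1 : ℂ))) f = Tadj β f n := by
  rw [TT_single, inner_add_left, inner_add_left, inner_smul_left, inner_single, inner_single, Tadj, sh]
  congr 2
  split_ifs with h
  · rw [inner_single]
  · rw [inner_zero_left]

theorem exists_pair (β : ℂ) (hβ : ‖β‖ = 1) (hd : ‖β - 1‖ < 1 / 1000) :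
    ∃ x y : ℕ → ℂ, EPair β (mu β) x y := by
  set δ := ‖β - 1‖ with hδ
  have hδ0 : 0 ≤ δ := norm_nonneg _
  have hlow : ∀ f : HH, (6 / 25 - 7 * δ) * ‖f‖ ^ 2 ≤ ‖TT β f‖ ^ 2 + ‖((2 : ℂ) • PT) f‖ ^ 2 := by
    intro f
    have h1 := sos0_HH f
    have h2 := TT_diff 1 β f
    rw [norm_sub_rev, ← hδ] at h2
    have h3 := TT_le β hβ f
    have h4 := PT_le f
    have h5 := norm_nonneg f
    have h6 := norm_nonneg (TT β f)
    have h7 := norm_nonneg (TT 1 f)
    have h8 : ‖TT 1 f‖ ^ 2 ≤ (‖TT β f‖ + δ * ‖f‖) ^ 2 := pow_le_pow_left₀ h7 h2 2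
    have h9 : δ * ‖f‖ * ‖TT β f‖ ≤ δ * ‖f‖ * (3 * ‖f‖) :=
      mul_le_mul_of_nonneg_left h3 (mul_nonneg hδ0 h5)
    have h10 : δ * δ * ‖f‖ ^ 2 ≤ δ * ‖f‖ ^ 2 := by
      have : δ * δ ≤ δ := by nlinarith
      exact mul_le_mul_of_nonneg_right this (sq_nonneg _)
    nlinarith
  have hmu1 : mu 1 ≤ 1 / 2 := by
    have h := mu_one_sq
    have h0 := mu_nonneg 1
    nlinarith
  have hmuβ : mu β ≤ mu 1 + δ := mu_lip β 1
  have hlt : mu β ^ 2 < 6 / 25 - 7 * δ := by
    have h := mu_one_sq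
    have h0 := mu_nonneg β
    have h1 := mu_nonneg 1
    have h2 : mu β ^ 2 ≤ (mu 1 + δ) ^ 2 := pow_le_pow_left₀ h0 hmuβ 2
    nlinarith
  obtain ⟨f, hf1, hf2⟩ := exists_minimizer (TT β) ((2 : ℂ) • PT) (6 / 25 - 7 * δ) (mu β) hlow
    (mu_le_sq β) (mu_approx β) (mu_nonneg β) hlt
  have heig := eigen_of_min (TT β) (mu β) (mu_le_sq β) f (by rw [hf1, hf2]; ring)
  have hfne : (f : ℕ → ℂ) ≠ 0 := by
    intro h
    have : f = 0 := by ext n; rw [h]; rfl
    rw [this, norm_zero] at hf1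
    exact zero_ne_one hf1
  have heq : ∀ n, Tadj β (TT β f) n = (mu β : ℂ) ^ 2 * f n := by
    intro n
    have := heig (lp.single 2 n (1 : ℂ))
    rw [inner_TT_single, inner_single] at this
    exact this
  by_cases h0 : mu β = 0
  · refine ⟨f, 0, HHs f, ?_, Or.inl hfne, ?_, ?_⟩
    · simpa using summable_zero
    · intro n
      rw [← TT_apply, h0]
      rw [h0, norm_eq_zero] at hf2
      rw [hf2]; simp
    · intro n
      rw [h0]; simp [Tadj, sh]
  · have h0c : (mu β : ℂ) ≠ 0 := by exact_mod_cast h0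
    refine ⟨f, fun n => (mu β : ℂ)⁻¹ * TT β f n, HHs f, ?_, Or.inl hfne, ?_, ?_⟩
    · have := (HHs (TT β f)).mul_left (‖(mu β : ℂ)⁻¹‖ ^ 2)
      refine this.congr fun n => ?_
      rw [norm_mul, mul_pow]
    · intro n
      rw [← TT_apply, mul_inv_cancel_left₀ h0c]
    · intro n
      have h1 := heq n
      have h2 : Tadj β (fun n => (mu β : ℂ)⁻¹ * TT β f n) n = (mu β : ℂ)⁻¹ * Tadj β (TT β f) n := by
        simp only [Tadj, sh]
        split_ifs <;> ring
      rw [h2, h1]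
      field_simp

end Pool.Agent.Q205.HC
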