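import Mathlib

/-!
Half-line model of the edge Hamiltonian of the honeycomb edge (3,1) with B-terminated
half-plane, at quasi-momentum `β = e^{ik}`.
-/

namespace Pool.Agent.Q205.HC

/-- `sh j x n = x (n - j)`, and `0` if `n < j`. -/
def sh (j : ℕ) (x : ℕ → ℂ) (n : ℕ) : ℂ := if j ≤ n then x (n - j) else 0

/-- The half-line operator `A → B`. -/
def Tseq (β : ℂ) (x : ℕ → ℂ) (n : ℕ) : ℂ := sh 1 x n + sh 2 x n + β * x (n + 2)

/-- Its formal adjoint `B → A`. -/
def Tadj (β : ℂ) (y : ℕ → ℂ) (n : ℕ) : ℂ :=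
  y (n + 1) + y (n + 2) + (starRingEnd ℂ) β * sh 2 y n

/-- The pair `(x, y)` is a nonzero square-summable eigenvector with eigenvalue `E`. -/
structure EPair (β : ℂ) (E : ℝ) (x y : ℕ → ℂ) : Prop where
  sx : Summable fun n => ‖x n‖ ^ 2
  sy : Summable fun n => ‖y n‖ ^ 2
  ne : x ≠ 0 ∨ y ≠ 0
  eqx : ∀ n, Tseq β x n = E * y n
  eqy : ∀ n, Tadj β y n = E * x n

theorem tendsto_zero_of_summable_sq {x : ℕ → ℂ} (h : Summable fun n => ‖x n‖ ^ 2) :
    Filter.Tendsto x Filter.atTop (nhds 0) := by
  have h1 := h.tendsto_atTop_zero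
  have h2 : Filter.Tendsto (fun n => ‖x n‖) Filter.atTop (nhds 0) := by
    have := (Real.continuous_sqrt.tendsto 0).comp h1
    simpa [Function.comp_def, Real.sqrt_sq (norm_nonneg _)] using this
  exact tendsto_zero_iff_norm_tendsto_zero.mpr h2

/-- Conjugation symmetry `k ↦ -k`. -/
theorem EPair.conj {β : ℂ} {E : ℝ} {x y : ℕ → ℂ} (h : EPair β E x y) :
    EPair ((starRingEnd ℂ) β) E (fun n => (starRingEnd ℂ) (x n)) (fun n => (starRingEnd ℂ) (y n)) := by
  refine ⟨?_, ?_, ?_, ?_, ?_⟩
  · simpa using h.sx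
  · simpa using h.sy
  · rcases h.ne with h1 | h1
    · left
      intro h2
      apply h1
      funext n
      have := congrFun h2 n
      simpa using this
    · right
      intro h2
      apply h1
      funext n
      have := congrFun h2 n
      simpa using this
  · intro n
    have := congrArg (starRingEnd ℂ) (h.eqx n)
    simp only [Tseq, sh, map_add, map_mul, apply_ite (starRingEnd ℂ), map_zero, Complex.conj_ofReal] at this ⊢
    exact this
  · intro n
    have := congrArg (starRingEnd ℂ) (h.eqy n)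
    simp only [Tadj, sh, map_add, map_mul, apply_ite (starRingEnd ℂ), map_zero, Complex.conj_ofReal] at this ⊢
    exact this

end Pool.Agent.Q205.HC
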