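import Pool.Agent.Q205.HC.Defs
import Pool.Agent.Q205.HC.HalfLine

/-!
Reduction of the edge problem of the edge `(3,1)` with half-plane `x · ν ≥ -1/3` to the half-line
problem.
-/

namespace Pool.Agent.Q205.HC

open Set Filter Topology

noncomputable section

theorem sqrt3_sq : √3 * √3 = (3 : ℝ) := Real.mul_self_sqrt (by norm_num)
theorem sqrt3_pos : (0 : ℝ) < √3 := Real.sqrt_pos.mpr (by norm_num)

theorem pos_re (m n : ℤ) (b : Bool) :
    (pos (m, n, b)).re = (m + n) * (√3 / 2) + if b then 1 / √3 else 0 := by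
  have hinv : (√3 : ℝ)⁻¹ = √3 / 3 := by
    have h3 := sqrt3_sq
    have hpos := sqrt3_pos
    field_simp
    nlinarith
  unfold pos vv₁ vv₂
  cases b
  · simp; ring
  · simp; rw [hinv]; ring

theorem pos_im (m n : ℤ) (b : Bool) : (pos (m, n, b)).im = (m - n) / 2 := by
  unfold pos vv₁ vv₂
  cases b <;> simp <;> ring

/-- the edge `(3,1)` -/
def e31 : Edge where
  a₁₁ := 3
  a₁₂ := 1
  coprime := ⟨0, 1, by norm_num⟩
  ν := ⟨2 / √3, -4⟩
  ν_ne := by
    intro h
    have := congrArg Complex.im h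
    simp at this
  perp := by
    have h := sqrt3_sq
    have h3 := sqrt3_pos
    unfold dot vv₁ vv₂
    simp
    field_simp
    nlinarith
  t := -1 / 3

theorem dot_pos (m n : ℤ) (b : Bool) :
    dot (pos (m, n, b)) e31.ν = 3 * n - m + if b then 2 / 3 else 0 := by
  unfold dot
  rw [pos_re, pos_im]
  have h := sqrt3_sq
  have h3 := sqrt3_pos
  have e1 : e31.ν.re = 2 / √3 := rfl
  have e2 : e31.ν.im = -4 := rfl
  rw [e1, e2]
  cases b
  · simp; field_simp; ring
  · simp; field_simp; nlinarith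

theorem mem_A (m n : ℤ) : (m, n, false) ∈ e31.sites ↔ 0 ≤ 3 * n - m := by
  change e31.t ≤ dot (pos (m, n, false)) e31.ν ↔ _
  rw [dot_pos]
  have : e31.t = -1 / 3 := rfl
  rw [this]
  simp only [Bool.false_eq_true, if_false, add_zero]
  constructor
  · intro h
    by_contra hcon
    have h1 : 3 * n - m ≤ -1 := by omega
    have h2 : (3 * n - m : ℝ) ≤ -1 := by exact_mod_cast h1
    linarith
  · intro h
    have h2 : (0 : ℝ) ≤ 3 * n - m := by exact_mod_cast h
    linarith

theorem mem_B (m n : ℤ) : (m, n, true) ∈ e31.sites ↔ -1 ≤ 3 * n - m := by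
  change e31.t ≤ dot (pos (m, n, true)) e31.ν ↔ _
  rw [dot_pos]
  have : e31.t = -1 / 3 := rfl
  rw [this]
  simp only [if_true]
  constructor
  · intro h
    by_contra hcon
    have h1 : 3 * n - m ≤ -2 := by omega
    have h2 : (3 * n - m : ℝ) ≤ -2 := by exact_mod_cast h1
    linarith
  · intro h
    have h2 : (-1 : ℝ) ≤ 3 * n - m := by exact_mod_cast h
    linarith

theorem dist_iff (z w : ℂ) : dist z w = 1 / √3 ↔ (z.re - w.re) ^ 2 + (z.im - w.im) ^ 2 = 1 / 3 := by
  rw [Complex.dist_eq]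
  have h : ‖z - w‖ ^ 2 = (z.re - w.re) ^ 2 + (z.im - w.im) ^ 2 := by
    rw [Complex.sq_norm, Complex.normSq_apply, Complex.sub_re, Complex.sub_im]; ring
  have h3 : (1 / √3 : ℝ) ^ 2 = 1 / 3 := by
    rw [div_pow, one_pow, pow_two, sqrt3_sq]
  rw [← h, ← h3]
  constructor
  · intro h1; rw [h1]
  · intro h1
    exact (pow_left_inj₀ (norm_nonneg _) (by positivity) two_ne_zero).mp h1

theorem int_key (p q : ℤ) (h : p ^ 2 + q ^ 2 + p * q + p + q = 0) :
    (p = 0 ∧ q = 0) ∨ (p = -1 ∧ q = 0) ∨ (p = 0 ∧ q = -1) := by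
  have h1 : -1 ≤ q := by nlinarith [sq_nonneg (2 * p + q + 1)]
  have h2 : q ≤ 0 := by nlinarith [sq_nonneg (2 * p + q + 1)]
  have h3 : -1 ≤ p := by nlinarith [sq_nonneg (2 * q + p + 1)]
  have h4 : p ≤ 0 := by nlinarith [sq_nonneg (2 * q + p + 1)]
  have hp : p = -1 ∨ p = 0 := by omega
  have hq : q = -1 ∨ q = 0 := by omega
  rcases hp with rfl | rfl <;> rcases hq with rfl | rfl <;> simp_all

/-- same sublattice: never nearest neighbours -/
theorem dist_same (m n m' n' : ℤ) (b : Bool) :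
    dist (pos (m', n', b)) (pos (m, n, b)) ≠ 1 / √3 := by
  rw [Ne, dist_iff, pos_re, pos_re, pos_im, pos_im]
  intro h
  have h3 := sqrt3_sq
  set p := m' - m with hp
  set q := n' - n with hq
  have h4 : ((p ^ 2 + q ^ 2 + p * q : ℤ) : ℝ) = 1 / 3 := by
    rw [← h]
    rw [hp, hq]
    push_cast
    nlinarith
  have h5 : (3 * (p ^ 2 + q ^ 2 + p * q) : ℤ) = 1 := by
    have : ((3 * (p ^ 2 + q ^ 2 + p * q) : ℤ) : ℝ) = 1 := by
      rw [Int.cast_mul, h4]; norm_num
    exact_mod_cast this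
  omega

theorem dist_AB (m n m' n' : ℤ) :
    dist (pos (m', n', true)) (pos (m, n, false)) = 1 / √3 ↔
      (m' = m ∧ n' = n) ∨ (m' = m - 1 ∧ n' = n) ∨ (m' = m ∧ n' = n - 1) := by
  rw [dist_iff, pos_re, pos_re, pos_im, pos_im]
  simp only [if_true, Bool.false_eq_true, if_false, add_zero]
  have h3 := sqrt3_sq
  have hpos := sqrt3_pos
  have hinv : 1 / √3 = √3 / 3 := by field_simp; nlinarith
  rw [hinv]
  have e : ((m' + n') * (√3 / 2) + √3 / 3 - (m + n) * (√3 / 2) : ℝ) ^ 2
      + ((m' - n') / 2 - (m - n) / 2) ^ 2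
      = (((m' - m) ^ 2 + (n' - n) ^ 2 + (m' - m) * (n' - n) + (m' - m) + (n' - n) : ℤ) : ℝ) + 1 / 3 := by
    push_cast
    nlinarith
  rw [e]
  constructor
  · intro h
    have h4 : (((m' - m) ^ 2 + (n' - n) ^ 2 + (m' - m) * (n' - n) + (m' - m) + (n' - n) : ℤ) : ℝ) = 0 := by
      linarith
    have h5 : (m' - m) ^ 2 + (n' - n) ^ 2 + (m' - m) * (n' - n) + (m' - m) + (n' - n) = 0 := by
      exact_mod_cast h4
    rcases int_key _ _ h5 with h | h | h <;> omega
  · intro h
    have h5 : (m' - m) ^ 2 + (n' - n) ^ 2 + (m' - m) * (n' - n) + (m' - m) + (n' - n) = 0 := by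
      rcases h with ⟨rfl, rfl⟩ | ⟨rfl, rfl⟩ | ⟨rfl, rfl⟩ <;> ring
    rw [h5]; norm_num

theorem dist_BA (m n m' n' : ℤ) :
    dist (pos (m', n', false)) (pos (m, n, true)) = 1 / √3 ↔
      (m' = m ∧ n' = n) ∨ (m' = m + 1 ∧ n' = n) ∨ (m' = m ∧ n' = n + 1) := by
  rw [dist_comm, dist_AB]
  constructor
  · intro h
    rcases h with h | h | h <;> omega
  · intro h
    rcases h with h | h | h <;> omega

theorem ham_B (ψ : Site → ℂ) (h0 : ∀ s, s ∉ e31.sites → ψ s = 0) (m n : ℤ) :
    e31.ham ψ (m, n, true) = ψ (m, n, false) + ψ (m + 1, n, false) + ψ (m, n + 1, false) := by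
  unfold Edge.ham
  rw [finsum_mem_inter_support_eq' ψ _ (({(m, n, false), (m + 1, n, false), (m, n + 1, false)} : Finset Site) : Set Site)]
  · rw [finsum_mem_coe_finset, Finset.sum_insert, Finset.sum_insert, Finset.sum_singleton]
    · ring
    · simp
    · simp
  · rintro ⟨m', n', b⟩ hs
    have hmem : (m', n', b) ∈ e31.sites := by
      by_contra hcon
      exact hs (h0 _ hcon)
    change ((m', n', b) ∈ e31.sites ∧ dist (pos (m', n', b)) (pos (m, n, true)) = 1 / √3) ↔ _
    simp only [hmem, true_and, Finset.coe_insert, Finset.coe_singleton, Set.mem_insert_iff,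
      Set.mem_singleton_iff, Prod.mk.injEq]
    cases b
    · rw [dist_BA]; simp
    · simp only [dist_same, Bool.true_eq_false, and_false, or_self]

theorem ham_A (ψ : Site → ℂ) (h0 : ∀ s, s ∉ e31.sites → ψ s = 0) (m n : ℤ) :
    e31.ham ψ (m, n, false) = ψ (m, n, true) + ψ (m - 1, n, true) + ψ (m, n - 1, true) := by
  unfold Edge.ham
  rw [finsum_mem_inter_support_eq' ψ _ (({(m, n, true), (m - 1, n, true), (m, n - 1, true)} : Finset Site) : Set Site)]
  · rw [finsum_mem_coe_finset, Finset.sum_insert, Finset.sum_insert, Finset.sum_singleton]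
    · ring
    · simp
    · simp; omega
  · rintro ⟨m', n', b⟩ hs
    have hmem : (m', n', b) ∈ e31.sites := by
      by_contra hcon
      exact hs (h0 _ hcon)
    change ((m', n', b) ∈ e31.sites ∧ dist (pos (m', n', b)) (pos (m, n, false)) = 1 / √3) ↔ _
    simp only [hmem, true_and, Finset.coe_insert, Finset.coe_singleton, Set.mem_insert_iff,
      Set.mem_singleton_iff, Prod.mk.injEq]
    cases b
    · simp only [dist_same, Bool.false_eq_true, and_false, or_self]
    · rw [dist_AB]; simp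

end

end Pool.Agent.Q205.HC
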