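import Pool.Agent.Q205.HC.Struct

namespace Pool.Agent.Q205.HC

open Polynomial

theorem mk_eq_zero_iff (x : ℕ → ℂ) : (PowerSeries.mk x : PowerSeries ℂ) = 0 ↔ x = 0 := by
  constructor
  · intro h
    funext n
    have := congrArg (PowerSeries.coeff n) h
    simpa using this
  · intro h
    rw [h]; ext n; simp

/-- **No embedded or threshold eigenvalue.**  If `E ≠ 0` and `|E|` is attained by the modulus of
the symbol on the unit circle, then `E` is not an eigenvalue. -/
theorem no_embedded (β : ℂ) (hβ : ‖β‖ = 1) (E : ℝ) (hE : E ≠ 0) (u₀ : ℂ) (hu : ‖u₀‖ = 1)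
    (hf : ‖u₀ ^ 4 + u₀ ^ 3 + β‖ = |E|) (x y : ℕ → ℂ) (h : EPair β E x y) : False := by
  have hEc : (E : ℂ) ≠ 0 := by exact_mod_cast hE
  have hcard := card_out_le β hβ E u₀ hu hf
  set s := (PP β E).roots with hs
  set so := s.filter fun ζ => 1 < ‖ζ‖ with hso
  set si := s.filter fun ζ => ¬ 1 < ‖ζ‖ with hsi
  have hmemo : ∀ ζ ∈ so, 1 < ‖ζ‖ := fun ζ h => (Multiset.mem_filter.mp h).2
  have hmemi : ∀ ζ ∈ si, ‖ζ‖ ≤ 1 := fun ζ h => not_lt.mp (Multiset.mem_filter.mp h).2
  set R : ℂ[X] := (so.map fun ζ => (X - C ζ : ℂ[X])).prod with hR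
  set Pc : ℂ[X] := (si.map fun ζ => (X - C ζ : ℂ[X])).prod with hPc
  have hsplit : s = so + si := (Multiset.filter_add_not _ _).symm
  set lc := (PP β E).leadingCoeff with hlc
  have hlc0 : lc ≠ 0 := leadingCoeff_ne_zero.mpr (PP_ne_zero β hβ E)
  have hP : PP β E = C lc * (R * Pc) := by
    conv_lhs => rw [PP_factor β E, ← hs, hsplit, Multiset.map_add, Multiset.prod_add]
  have hcs : s.card = 8 := by
    rw [← PP_natDegree β hβ E]
    exact ((IsAlgClosed.splits (PP β E)).natDegree_eq_card_roots).symm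
  have hcs2 : so.card + si.card = 8 := by rw [← hcs, hsplit, Multiset.card_add]
  have dR : R.natDegree = so.card := natDegree_multiset_prod_X_sub_C_eq_card so
  have dP : Pc.natDegree = si.card := natDegree_multiset_prod_X_sub_C_eq_card si
  have mR : R.Monic := monic_multiset_prod_of_monic _ _ fun a _ => monic_X_sub_C a
  have mP : Pc.Monic := monic_multiset_prod_of_monic _ _ fun a _ => monic_X_sub_C a
  have g1 := gen_eq1 h
  have g2 := gen_eq2 h
  set Xs : PowerSeries ℂ := PowerSeries.mk x with hXs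
  set Ys : PowerSeries ℂ := PowerSeries.mk y with hYs
  set l1 : ℂ[X] := C β * (C (x 0) + C (x 1) * X) with hl1
  set l2 : ℂ[X] := C (y 0) + C (y 0 + y 1) * X with hl2
  set q : ℂ[X] := PB β * l1 + C (E : ℂ) * X ^ 2 * l2 with hq
  have hPx : ((PP β E : ℂ[X]) : PowerSeries ℂ) * Xs = (q : PowerSeries ℂ) := by
    rw [PP, hq]
    simp only [Polynomial.coe_sub, Polynomial.coe_mul, Polynomial.coe_add, Polynomial.coe_pow,
      Polynomial.coe_X, Polynomial.coe_C, C_pow, map_pow] at g1 g2 ⊢
    linear_combination (-((PB β : ℂ[X]) : PowerSeries ℂ)) * g1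
      - (PowerSeries.X ^ 2 * PowerSeries.C (E : ℂ)) * g2
  have hnull : Filter.Tendsto (fun n => PowerSeries.coeff n ((R : PowerSeries ℂ) * Xs))
      Filter.atTop (nhds 0) := by
    apply null_poly_mul
    simpa [hXs] using tendsto_zero_of_summable_sq h.sx
  have hq' : (Pc : PowerSeries ℂ) * ((R : PowerSeries ℂ) * Xs)
      = ((C lc⁻¹ * q : ℂ[X]) : PowerSeries ℂ) := by
    rw [Polynomial.coe_mul, ← hPx, hP]
    simp only [Polynomial.coe_mul, Polynomial.coe_C]
    have : PowerSeries.C lc⁻¹ * PowerSeries.C lc = (1 : PowerSeries ℂ) := by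
      rw [← map_mul, inv_mul_cancel₀ hlc0, map_one]
    linear_combination (-(Pc : PowerSeries ℂ) * (R : PowerSeries ℂ) * Xs) * this
  obtain ⟨c, hc⟩ := cancel_many si hmemi _ hnull _ hq'
  have hdl1 : l1.natDegree ≤ 1 := by
    rw [hl1]; compute_degree
  have hdl2 : l2.natDegree ≤ 1 := by
    rw [hl2]; compute_degree
  have hdB : (PB β).natDegree ≤ 4 := by
    unfold PB; compute_degree
  have hdA : (PA β).natDegree ≤ 4 := by
    unfold PA; compute_degree
  have hdq : q.natDegree ≤ 5 := by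
    rw [hq]
    refine (natDegree_add_le _ _).trans (max_le ?_ ?_)
    · exact natDegree_mul_le.trans (by omega)
    · refine natDegree_mul_le.trans ?_
      have : (C (E : ℂ) * X ^ 2 : ℂ[X]).natDegree ≤ 2 := by compute_degree
      omega
  have hpc : Pc * c = C lc⁻¹ * q := by
    apply Polynomial.coe_injective ℂ
    rw [Polynomial.coe_mul, ← hc, hq']
  by_cases hc0 : c = 0
  · rw [hc0, Polynomial.coe_zero] at hc
    have hR0 : (R : PowerSeries ℂ) ≠ 0 := by
      intro h0
      exact mR.ne_zero ((Polynomial.coe_eq_zero_iff).mp h0)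
    have hX0 : Xs = 0 := (mul_eq_zero.mp hc).resolve_left hR0
    have hx0 : x = 0 := (mk_eq_zero_iff x).mp hX0
    have hy0 : y = 0 := by
      funext n
      have := h.eqx n
      rw [hx0] at this
      simp only [Tseq, sh, Pi.zero_apply, ite_self, mul_zero, add_zero] at this
      exact (mul_eq_zero.mp this.symm).resolve_left hEc
    rcases h.ne with h1 | h1
    · exact h1 hx0
    · exact h1 hy0
  -- degrees
  have hdeg : Pc.natDegree + c.natDegree ≤ 5 := by
    rw [← natDegree_mul mP.ne_zero hc0, hpc]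
    exact natDegree_mul_le.trans (by simpa using hdq)
  have hso3 : so.card = 3 := by omega
  have hcd : c.natDegree = 0 := by omega
  obtain ⟨c0, hc0'⟩ := natDegree_eq_zero.mp hcd
  have hc0ne : c0 ≠ 0 := by
    rintro rfl; apply hc0; rw [← hc0', C_0]
  rw [← hc0', Polynomial.coe_C] at hc
  have hR3 : R.natDegree = 3 := by rw [dR, hso3]
  -- the series R * Ys
  set N : PowerSeries ℂ := (R : PowerSeries ℂ) * Ys with hN
  have k1 : (PowerSeries.X ^ 2 : PowerSeries ℂ) * (PowerSeries.C (E : ℂ) * N)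
      = ((PA β * C c0 - l1 * R : ℂ[X]) : PowerSeries ℂ) := by
    simp only [Polynomial.coe_sub, Polynomial.coe_mul, Polynomial.coe_C] at g1 ⊢
    rw [hN]
    linear_combination (R : PowerSeries ℂ) * g1 + ((PA β : ℂ[X]) : PowerSeries ℂ) * hc
  have k2 : ((C (E : ℂ) * X ^ 2 * C c0 + l2 * R : ℂ[X]) : PowerSeries ℂ)
      = ((PB β : ℂ[X]) : PowerSeries ℂ) * N := by
    simp only [Polynomial.coe_sub, Polynomial.coe_mul, Polynomial.coe_C, Polynomial.coe_add,
      Polynomial.coe_pow, Polynomial.coe_X] at g2 ⊢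
    rw [hN]
    linear_combination (R : PowerSeries ℂ) * g2 - (PowerSeries.X ^ 2 * PowerSeries.C (E : ℂ)) * hc
  have hN3 : ∀ n, 3 ≤ n → PowerSeries.coeff n N = 0 := by
    intro n hn
    have e1 := congrArg (PowerSeries.coeff (n + 2)) k1
    rw [Polynomial.coeff_coe, Polynomial.coeff_eq_zero_of_natDegree_lt] at e1
    · rw [PowerSeries.coeff_X_pow_mul, PowerSeries.coeff_C_mul] at e1
      exact (mul_eq_zero.mp e1).resolve_left hEc
    · refine lt_of_le_of_lt (natDegree_sub_le _ _) (max_lt ?_ ?_)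
      · exact lt_of_le_of_lt natDegree_mul_le (by rw [natDegree_C]; omega)
      · exact lt_of_le_of_lt natDegree_mul_le (by omega)
  have hβ0 : (starRingEnd ℂ) β ≠ 0 := by
    intro h0
    have : β = 0 := by simpa using h0
    rw [this] at hβ; simp at hβ
  have hN1 : ∀ n, 1 ≤ n → PowerSeries.coeff n N = 0 := by
    intro n hn
    have e1 := congrArg (PowerSeries.coeff (n + 4)) k2
    rw [Polynomial.coeff_coe, Polynomial.coeff_eq_zero_of_natDegree_lt] at e1
    · have e2 : PowerSeries.coeff (n + 4) (((PB β : ℂ[X]) : PowerSeries ℂ) * N)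
          = (starRingEnd ℂ) β * PowerSeries.coeff n N + PowerSeries.coeff (n + 3) N
            + PowerSeries.coeff (n + 4) N := by
        simp only [PB, Polynomial.coe_add, Polynomial.coe_mul, Polynomial.coe_pow,
          Polynomial.coe_X, Polynomial.coe_C, Polynomial.coe_one, add_mul, map_add, mul_assoc,
          one_mul, PowerSeries.coeff_C_mul, PowerSeries.coeff_X_pow_mul]
        congr 2
        rw [show n + 4 = (n + 3) + 1 from rfl, PowerSeries.coeff_succ_X_mul]
      rw [e2, hN3 (n + 3) (by omega), hN3 (n + 4) (by omega), add_zero, add_zero] at e1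
      exact (mul_eq_zero.mp e1.symm).resolve_left hβ0
    · refine lt_of_le_of_lt (natDegree_add_le _ _) (max_lt ?_ ?_)
      · have : (C (E : ℂ) * X ^ 2 * C c0 : ℂ[X]).natDegree ≤ 2 := by
          rw [mul_assoc, mul_comm (X ^ 2), ← mul_assoc, ← C_mul]; compute_degree
        omega
      · exact lt_of_le_of_lt natDegree_mul_le (by omega)
  set n0 : ℂ := PowerSeries.coeff 0 N with hn0
  have hNC : N = PowerSeries.C n0 := by
    ext n
    rw [PowerSeries.coeff_C]
    split_ifs with h0
    · rw [h0]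
    · exact hN1 n (by omega)
  have I1 : C ((E : ℂ) * n0) * X ^ 2 = PA β * C c0 - l1 * R := by
    apply Polynomial.coe_injective ℂ
    rw [← k1, hNC]
    simp only [Polynomial.coe_mul, Polynomial.coe_pow, Polynomial.coe_X, Polynomial.coe_C, map_mul]
    ring
  have I2 : C (E : ℂ) * X ^ 2 * C c0 + l2 * R = PB β * C n0 := by
    apply Polynomial.coe_injective ℂ
    rw [k2, hNC, Polynomial.coe_mul, Polynomial.coe_C]
  have hbb : C β * C ((starRingEnd ℂ) β) = (1 : ℂ[X]) := by
    rw [← C_mul, Complex.mul_conj, Complex.normSq_eq_norm_sq, hβ]; simp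
  set G : ℂ[X] := C (n0 * c0 * (starRingEnd ℂ) β) * X ^ 2
    + C ((E : ℂ) * (c0 ^ 2 - (starRingEnd ℂ) β * n0 ^ 2)) * X - C (n0 * c0) with hG
  have hGR : R ∣ X * G := by
    refine ⟨C ((starRingEnd ℂ) β * n0) * l1 - C c0 * l2, ?_⟩
    rw [hG]
    simp only [PA, PB, C_mul, C_sub, C_pow, C_add] at I1 I2 ⊢
    linear_combination (-(C ((starRingEnd ℂ) β) * C n0)) * I1 + C c0 * I2 - (C n0 * C c0) * hbb
  have hRX : IsCoprime R X := by
    rw [isCoprime_iff_aeval_ne_zero_of_isAlgClosed (k := ℂ) (K := ℂ)]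
    intro a
    by_contra hcon
    push Not at hcon
    obtain ⟨e1, e2⟩ := hcon
    simp only [coe_aeval_eq_eval] at e1 e2
    have m1 := hmemo a ((eval_prod_X_sub so a).mp e1)
    rw [eval_X] at e2
    rw [e2, norm_zero] at m1
    linarith
  have hGR' : R ∣ G := hRX.dvd_of_dvd_mul_left hGR
  have hG0 : G = 0 := by
    by_contra hne
    have := natDegree_le_of_dvd hGR' hne
    have hdG : G.natDegree ≤ 2 := by rw [hG]; compute_degree
    omega
  have z0 : n0 * c0 = 0 := by
    have := congrArg (fun p => Polynomial.coeff p 0) hG0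
    simpa [hG, coeff_X] using this
  have hn00 : n0 = 0 := (mul_eq_zero.mp z0).resolve_right hc0ne
  have z1 : (E : ℂ) * c0 ^ 2 = 0 := by
    have hc1 : G.coeff 1 = (E : ℂ) * (c0 ^ 2 - (starRingEnd ℂ) β * n0 ^ 2) := by
      rw [hG, coeff_sub, coeff_add, coeff_C_mul, coeff_C_mul, coeff_X_pow, coeff_X_one, coeff_C]
      simp
    rw [hG0, hn00, coeff_zero] at hc1
    linear_combination -hc1
  exact (mul_ne_zero hEc (pow_ne_zero 2 hc0ne)) z1

end Pool.Agent.Q205.HC
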