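import Pool.Agent.Q205.HC.Exist4
import Pool.Agent.Q205.HC.Cert
import Pool.Agent.Q205.HC.Struct2

namespace Pool.Agent.Q205.HC
open Filter Topology Set

/-- `E` is an eigenvalue of the half-line problem at quasi-momentum `t`. -/
def SpecR (t : ℝ) (E : ℝ) : Prop := ∃ x y, EPair (Complex.exp (t * Complex.I)) E x y

theorem norm_exp_I (t : ℝ) : ‖Complex.exp (t * Complex.I)‖ = 1 := Complex.norm_exp_ofReal_mul_I t

theorem near_zero : ∃ δ > 0, ∀ t : ℝ, |t| < δ → SpecR t (mu (Complex.exp (t * Complex.I))) := by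
  have hc : Continuous fun t : ℝ => Complex.exp (t * Complex.I) := by fun_prop
  have hc0 : ContinuousAt (fun t : ℝ => Complex.exp (t * Complex.I)) 0 := hc.continuousAt
  obtain ⟨δ, hδ, h⟩ := Metric.continuousAt_iff.mp hc0 (1 / 1000) (by norm_num)
  refine ⟨δ, hδ, fun t ht => ?_⟩
  apply exists_pair _ (norm_exp_I t)
  have := h (show dist t 0 < δ by simpa using ht)
  simpa [dist_eq_norm] using this

theorem mu_zero_lt : |mu (Complex.exp ((0 : ℝ) * Complex.I))| < 3 := by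
  have h := mu_one_sq
  have h0 := mu_nonneg 1
  simp only [Complex.ofReal_zero, zero_mul, Complex.exp_zero]
  rw [abs_of_nonneg h0]
  nlinarith

noncomputable def k₁ : ℝ := Real.arccos (5299 / 60750)

theorem k₁_pos : 0 < k₁ := Real.arccos_pos.mpr (by norm_num)
theorem k₁_lt : k₁ < Real.pi / 2 := Real.arccos_lt_pi_div_two.mpr (by norm_num)

theorem exp_k₁ : Complex.exp (k₁ * Complex.I) = β₁ := by
  rw [β₁_eq, Complex.exp_mul_I, ← Complex.ofReal_cos, ← Complex.ofReal_sin, k₁,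
    Real.cos_arccos (by norm_num) (by norm_num), Real.sin_arccos]
  have h : Real.sqrt (1 - (5299 / 60750) ^ 2) = 18247 / 60750 * Real.sqrt 11 := by
    rw [Real.sqrt_eq_iff_mul_self_eq (by norm_num) (by positivity)]
    have := Real.mul_self_sqrt (show (0 : ℝ) ≤ 11 by norm_num)
    nlinarith
  rw [h, ww]
  push_cast
  ring

theorem exp_neg_k₁ : Complex.exp (((-k₁ : ℝ) : ℂ) * Complex.I) = (starRingEnd ℂ) β₁ := by
  rw [← exp_k₁, ← Complex.exp_conj]
  simp

/-- at a crossing momentum the cosine is `-1/2` -/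
theorem re_of_zero (u β : ℂ) (hu : ‖u‖ = 1) (hβ : ‖β‖ = 1) (h : u ^ 4 + u ^ 3 + β = 0) :
    β.re = -1 / 2 := by
  have h1 : β = -(u ^ 3 * (u + 1)) := by linear_combination h
  have h2 : ‖u + 1‖ = 1 := by
    rw [h1, norm_neg, norm_mul, norm_pow, hu, one_pow, one_mul] at hβ
    exact hβ
  have e1 : u.re ^ 2 + u.im ^ 2 = 1 := by
    have := Complex.sq_norm u
    rw [hu, Complex.normSq_apply] at this
    linarith
  have e2 : (u.re + 1) ^ 2 + u.im ^ 2 = 1 := by
    have := Complex.sq_norm (u + 1)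
    rw [h2, Complex.normSq_apply] at this
    simp at this
    linarith
  have e3 : u.re = -1 / 2 := by linarith
  have e4 : u ^ 2 + u + 1 = 0 := by
    apply Complex.ext
    · simp [pow_two, Complex.mul_re]; nlinarith
    · simp [pow_two, Complex.mul_im]; rw [e3]; ring
  have e5 : β = -(u + 1) := by
    rw [h1]; linear_combination (-(u + 1) * (u - 1)) * e4
  rw [e5]; simp; linarith

theorem val_k₁ : ‖ga' ^ 4 + ga' ^ 3 + β₁‖ ^ 2 = 1 / 45 := by
  have h : ga' ^ 4 + ga' ^ 3 + β₁ = ga' ^ 4 * (-3 / 30 - 1 / 30 * ww) := by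
    have h3 : ga' ^ 3 = ga' ^ 4 * ga := by linear_combination (-ga' ^ 3) * ga_mul
    unfold β₁
    rw [h3]
    have : (-3 / 30 - 1 / 30 * ww) = 1 + ga + gb := by unfold ga gb; ring
    rw [this]; ring
  rw [h, norm_mul, norm_pow, ga'_norm, one_pow, one_mul]
  have h2 : ((‖(-3 / 30 - 1 / 30 * ww : ℂ)‖ ^ 2 : ℝ) : ℂ) = ((1 / 45 : ℝ) : ℂ) := by
    push_cast
    rw [← Complex.mul_conj']
    simp only [map_sub, map_mul, map_div₀, map_neg, map_ofNat, map_one, ww_conj]
    linear_combination (-1 / 900) * ww_sq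
  exact_mod_cast h2

/-- **Confinement**: a continuous curve of eigenvalues through `(0, E 0)` with `|E 0| < 3`
never reaches `±k₁`. -/
theorem confine (J : Set ℝ) (hJ : J.OrdConnected) (h0 : (0 : ℝ) ∈ J) (E : ℝ → ℝ)
    (hE : ContinuousOn E J) (hS : ∀ t ∈ J, SpecR t (E t)) (hE0 : |E 0| < 3) :
    ∀ t ∈ J, |t| < k₁ := by
  intro t ht
  by_contra hcon
  push Not at hcon
  -- the endpoint reached
  obtain ⟨s, hs, hsJ⟩ : ∃ s : ℝ, (s = k₁ ∨ s = -k₁) ∧ s ∈ J := by
    rcases le_total 0 t with h | h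
    · rw [abs_of_nonneg h] at hcon
      exact ⟨k₁, Or.inl rfl, hJ.out h0 ht ⟨k₁_pos.le, hcon⟩⟩
    · rw [abs_of_nonpos h] at hcon
      exact ⟨-k₁, Or.inr rfl, hJ.out ht h0 ⟨by linarith, by linarith [k₁_pos]⟩⟩
  have hsub : uIcc 0 s ⊆ J := hJ.uIcc_subset h0 hsJ
  have habs : ∀ r ∈ uIcc 0 s, |r| ≤ k₁ := by
    intro r hr
    rw [mem_uIcc] at hr
    rw [abs_le]
    have := k₁_pos
    rcases hs with rfl | rfl <;> rcases hr with hr | hr <;> constructor <;> linarith [hr.1, hr.2]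
  set g : ℝ × ℝ → ℝ := fun p =>
    ‖Complex.exp (p.2 * Complex.I) ^ 4 + Complex.exp (p.2 * Complex.I) ^ 3
      + Complex.exp (p.1 * Complex.I)‖ - |E p.1| with hg
  have hgc : ContinuousOn g (uIcc 0 s ×ˢ univ) := by
    apply ContinuousOn.sub
    · apply Continuous.continuousOn
      fun_prop
    · exact ((hE.mono hsub).comp continuousOn_fst fun p hp => hp.1).abs
  have hpre : IsPreconnected (uIcc (0 : ℝ) s ×ˢ (univ : Set ℝ)) :=
    isPreconnected_uIcc.prod isPreconnected_univ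
  have hne : ∀ p ∈ uIcc 0 s ×ˢ (univ : Set ℝ), g p ≠ 0 := by
    rintro ⟨r, θ⟩ ⟨hr, -⟩ h
    simp only at hr
    obtain ⟨x, y, hxy⟩ := hS r (hsub hr)
    have hnorm : ‖Complex.exp (θ * Complex.I) ^ 4 + Complex.exp (θ * Complex.I) ^ 3
      + Complex.exp (r * Complex.I)‖ = |E r| := by
      simp only [hg] at h; linarith
    by_cases hEr : E r = 0
    · rw [hEr, abs_zero, norm_eq_zero] at hnorm
      have h1 := re_of_zero _ _ (norm_exp_I θ) (norm_exp_I r) hnorm
      rw [Complex.exp_ofReal_mul_I_re] at h1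
      have h2 : 0 ≤ Real.cos r := by
        apply Real.cos_nonneg_of_neg_pi_div_two_le_of_le
        · have := (abs_le.mp (habs r hr)).1; linarith [k₁_lt]
        · have := (abs_le.mp (habs r hr)).2; linarith [k₁_lt]
      linarith
    · exact no_embedded _ (norm_exp_I r) (E r) hEr _ (norm_exp_I θ) hnorm x y hxy
  have h00 : ((0 : ℝ), (0 : ℝ)) ∈ uIcc 0 s ×ˢ (univ : Set ℝ) := ⟨left_mem_uIcc, mem_univ _⟩
  have hg0 : 0 < g (0, 0) := by
    simp only [hg]
    have : ‖Complex.exp (((0 : ℝ) : ℂ) * Complex.I) ^ 4 + Complex.exp (((0 : ℝ) : ℂ) * Complex.I) ^ 3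
      + Complex.exp (((0 : ℝ) : ℂ) * Complex.I)‖ = 3 := by
      simp only [Complex.ofReal_zero, zero_mul, Complex.exp_zero]
      norm_num
    rw [this]; linarith
  have hpos : ∀ p ∈ uIcc 0 s ×ˢ (univ : Set ℝ), 0 < g p := by
    intro p hp
    by_contra hneg
    push Not at hneg
    have := hpre.intermediate_value hp h00 hgc
    obtain ⟨z, hz, hz0⟩ := this ⟨hneg, hg0.le⟩
    exact hne z hz hz0
  obtain ⟨θ, hθ⟩ : ∃ θ : ℝ, Complex.exp (θ * Complex.I) = ga' := by
    refine ⟨Complex.arg ga', ?_⟩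
    have := Complex.norm_mul_exp_arg_mul_I ga'
    rwa [ga'_norm, Complex.ofReal_one, one_mul] at this
  have hsmem : s ∈ uIcc 0 s := right_mem_uIcc
  obtain ⟨x, y, hxy⟩ := hS s hsJ
  have hcert : 1 / 45 ≤ E s ^ 2 := by
    rcases hs with rfl | rfl
    · rw [exp_k₁] at hxy
      exact cert hxy
    · rw [exp_neg_k₁] at hxy
      have := hxy.conj
      rw [Complex.conj_conj] at this
      exact cert this
  have hlt : E s ^ 2 < 1 / 45 := by
    rcases hs with rfl | rfl
    · have h1 := hpos (k₁, θ) ⟨hsmem, mem_univ _⟩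
      simp only [hg] at h1
      rw [hθ, exp_k₁] at h1
      have h2 := val_k₁
      have h3 : |E k₁| < ‖ga' ^ 4 + ga' ^ 3 + β₁‖ := by linarith
      rw [← sq_abs, ← h2]
      exact pow_lt_pow_left₀ h3 (abs_nonneg _) two_ne_zero
    · have h1 := hpos (-k₁, -θ) ⟨hsmem, mem_univ _⟩
      simp only [hg] at h1
      have h4 : Complex.exp (((-θ : ℝ) : ℂ) * Complex.I) = (starRingEnd ℂ) ga' := by
        rw [← hθ, ← Complex.exp_conj]; simp
      rw [h4, exp_neg_k₁, ← map_pow, ← map_pow, ← map_add, ← map_add, RCLike.norm_conj] at h1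
      have h2 := val_k₁
      have h3 : |E (-k₁)| < ‖ga' ^ 4 + ga' ^ 3 + β₁‖ := by linarith
      rw [← sq_abs, ← h2]
      exact pow_lt_pow_left₀ h3 (abs_nonneg _) two_ne_zero
  linarith

end Pool.Agent.Q205.HC
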