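import Pool.Agent.Q205.HC.Geom

namespace Pool.Agent.Q205.HC

open Set Filter Topology

noncomputable section

theorem shift_eq (j m n : ℤ) (b : Bool) : e31.shift j (m, n, b) = (m + j * 3, n + j * 1, b) := rfl

theorem shift_mem (j : ℤ) (s : Site) : e31.shift j s ∈ e31.sites ↔ s ∈ e31.sites := by
  obtain ⟨m, n, b⟩ := s
  rw [shift_eq]
  cases b
  · rw [mem_A, mem_A]; constructor <;> intro h <;> omega
  · rw [mem_B, mem_B]; constructor <;> intro h <;> omega

theorem shift_shift (i j : ℤ) (s : Site) : e31.shift i (e31.shift j s) = e31.shift (j + i) s := by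
  obtain ⟨m, n, b⟩ := s
  simp only [shift_eq, Prod.mk.injEq, and_true]
  constructor <;> ring

theorem per_all (ψ : Site → ℂ) (z : ℂ) (hz : z ≠ 0)
    (hper : ∀ s ∈ e31.sites, ψ (e31.shift 1 s) = z * ψ s) (s : Site) (hs : s ∈ e31.sites) (j : ℤ) :
    ψ (e31.shift j s) = z ^ j * ψ s := by
  induction j using Int.induction_on with
  | zero =>
    obtain ⟨m, n, b⟩ := s
    simp [shift_eq]
  | succ i ih =>
    have h1 := hper (e31.shift i s) ((shift_mem _ _).mpr hs)
    rw [shift_shift] at h1
    rw [h1, ih, zpow_add₀ hz, zpow_one]; ring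
  | pred i ih =>
    have h1 := hper (e31.shift (-(i : ℤ) - 1) s) ((shift_mem _ _).mpr hs)
    rw [shift_shift, sub_add_cancel, ih] at h1
    rw [zpow_sub₀ hz, zpow_one]
    field_simp
    linear_combination -h1

theorem summable_row (ψ : Site → ℂ) (z : ℂ) (hz : ‖z‖ = 1)
    (hper : ∀ s ∈ e31.sites, ψ (e31.shift 1 s) = z * ψ s) (F : Set Site) (hF : e31.IsPeriod F)
    (hsum : Summable fun s : F => ‖ψ s‖ ^ 2) (r : ℕ → Site) (hr : ∀ n, r n ∈ e31.sites)
    (hinj : ∀ n n' j j', e31.shift j (r n) = e31.shift j' (r n') → n = n') :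
    Summable fun n => ‖ψ (r n)‖ ^ 2 := by
  have hz0 : z ≠ 0 := by intro h; rw [h] at hz; simp at hz
  choose j hj using fun n => (hF.2 (r n) (hr n)).exists
  have hg : Function.Injective (fun n => (⟨e31.shift (j n) (r n), hj n⟩ : F)) := by
    intro n n' h
    exact hinj n n' _ _ (congrArg Subtype.val h)
  have h1 := hsum.comp_injective hg
  refine h1.congr fun n => ?_
  simp only [Function.comp_apply]
  rw [per_all ψ z hz0 hper _ (hr n), norm_mul, norm_zpow, hz, one_zpow, one_mul]

theorem toCircle_norm (k : Real.Angle) : ‖(k.toCircle : ℂ)‖ = 1 := Circle.norm_coe _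

theorem pair_of_edgeState {k : Real.Angle} {E : ℝ} (h : e31.EdgeState k E) :
    ∃ x y, EPair (k.toCircle : ℂ) E x y := by
  obtain ⟨ψ, h0, hne, hper, ⟨F, hF, hsum⟩, heq⟩ := h
  set z : ℂ := (k.toCircle : ℂ) with hzdef
  have hz : ‖z‖ = 1 := toCircle_norm k
  have hz0 : z ≠ 0 := by intro h; rw [h] at hz; simp at hz
  have hconj : (starRingEnd ℂ) z = z⁻¹ := by
    rw [Complex.inv_def, Complex.normSq_eq_norm_sq, hz]; simp
  have hall := per_all ψ z hz0 hper
  set x : ℕ → ℂ := fun n => ψ (-(n : ℤ), 0, false) with hx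
  set y : ℕ → ℂ := fun n => ψ (1 - (n : ℤ), 0, true) with hy
  have mx : ∀ n : ℕ, ((-(n : ℤ), 0, false) : Site) ∈ e31.sites := by
    intro n; rw [mem_A]; omega
  have my : ∀ n : ℕ, ((1 - (n : ℤ), 0, true) : Site) ∈ e31.sites := by
    intro n; rw [mem_B]; omega
  refine ⟨x, y, ?_, ?_, ?_, ?_, ?_⟩
  · apply summable_row ψ z hz hper F hF hsum _ mx
    intro n n' j j' h
    simp only [shift_eq, Prod.mk.injEq] at h
    omega
  · apply summable_row ψ z hz hper F hF hsum _ my
    intro n n' j j' h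
    simp only [shift_eq, Prod.mk.injEq] at h
    omega
  · by_contra hcon
    push Not at hcon
    obtain ⟨hx0, hy0⟩ := hcon
    apply hne
    funext s
    by_cases hs : s ∈ e31.sites
    · obtain ⟨m, n, b⟩ := s
      cases b
      · have h1 := (mem_A m n).mp hs
        obtain ⟨i, hi⟩ := Int.eq_ofNat_of_zero_le h1
        have h2 := hall (-(i : ℤ), 0, false) (mx i) n
        rw [shift_eq] at h2
        have h3 : ((-(i : ℤ) + n * 3, 0 + n * 1, false) : Site) = (m, n, false) := by
          simp only [Prod.mk.injEq, and_true]; constructor <;> omega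
        rw [h3] at h2
        have h4 : ψ (-(i : ℤ), 0, false) = 0 := congrFun hx0 i
        rw [h2, h4]; simp
      · have h1 := (mem_B m n).mp hs
        obtain ⟨i, hi⟩ := Int.eq_ofNat_of_zero_le (show 0 ≤ 3 * n - m + 1 by omega)
        have h2 := hall (1 - (i : ℤ), 0, true) (my i) n
        rw [shift_eq] at h2
        have h3 : ((1 - (i : ℤ) + n * 3, 0 + n * 1, true) : Site) = (m, n, true) := by
          simp only [Prod.mk.injEq, and_true]; constructor <;> omega
        rw [h3] at h2
        have h4 : ψ (1 - (i : ℤ), 0, true) = 0 := congrFun hy0 i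
        rw [h2, h4]; simp
    · rw [h0 s hs]; rfl
  · intro n
    have h1 := heq _ (my n)
    rw [ham_B ψ h0] at h1
    have e1 : ψ (1 - (n : ℤ), 0, false) = sh 1 x n := by
      rw [sh]
      split_ifs with h
      · simp only [hx]; congr 2; omega
      · apply h0; rw [mem_A]; omega
    have e2 : ψ (1 - (n : ℤ) + 1, 0, false) = sh 2 x n := by
      rw [sh]
      split_ifs with h
      · simp only [hx]; congr 2; omega
      · apply h0; rw [mem_A]; omega
    have e3 : ψ (1 - (n : ℤ), 0 + 1, false) = z * x (n + 2) := by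
      have h2 := hall (-((n + 2 : ℕ) : ℤ), 0, false) (mx (n + 2)) 1
      rw [shift_eq, zpow_one] at h2
      simp only [hx]
      rw [← h2]; congr 2; push_cast; ring
    rw [e1, e2, e3] at h1
    exact h1
  · intro n
    have h1 := heq _ (mx n)
    rw [ham_A ψ h0] at h1
    have e1 : ψ (-(n : ℤ), 0, true) = y (n + 1) := by
      simp only [hy]; congr 2; push_cast; ring
    have e2 : ψ (-(n : ℤ) - 1, 0, true) = y (n + 2) := by
      simp only [hy]; congr 2; push_cast; ring
    have e3 : ψ (-(n : ℤ), 0 - 1, true) = (starRingEnd ℂ) z * sh 2 y n := by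
      rw [sh]
      split_ifs with h
      · have h2 := hall (1 - ((n - 2 : ℕ) : ℤ), 0, true) (my (n - 2)) (-1)
        rw [shift_eq, zpow_neg_one] at h2
        simp only [hy]
        rw [hconj, ← h2]; congr 2; omega
      · rw [mul_zero]; apply h0; rw [mem_B]; omega
    rw [e1, e2, e3] at h1
    exact h1

/-- the function on the sites attached to a pair of sequences -/
def mkψ (z : ℂ) (x y : ℕ → ℂ) (s : Site) : ℂ :=
  match s with
  | (m, n, false) => if 0 ≤ 3 * n - m then z ^ n * x (3 * n - m).toNat else 0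
  | (m, n, true) => if -1 ≤ 3 * n - m then z ^ n * y (3 * n - m + 1).toNat else 0

theorem mkψ_A (z : ℂ) (x y : ℕ → ℂ) (m n : ℤ) :
    mkψ z x y (m, n, false) = if 0 ≤ 3 * n - m then z ^ n * x (3 * n - m).toNat else 0 := rfl

theorem mkψ_B (z : ℂ) (x y : ℕ → ℂ) (m n : ℤ) :
    mkψ z x y (m, n, true) = if -1 ≤ 3 * n - m then z ^ n * y (3 * n - m + 1).toNat else 0 := rfl

theorem edgeState_of_pair {k : Real.Angle} {E : ℝ} {x y : ℕ → ℂ}
    (h : EPair (k.toCircle : ℂ) E x y) : e31.EdgeState k E := by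
  set z : ℂ := (k.toCircle : ℂ) with hzdef
  have hz : ‖z‖ = 1 := toCircle_norm k
  have hz0 : z ≠ 0 := by intro h; rw [h] at hz; simp at hz
  have hconj : (starRingEnd ℂ) z = z⁻¹ := by
    rw [Complex.inv_def, Complex.normSq_eq_norm_sq, hz]; simp
  have h0 : ∀ s, s ∉ e31.sites → mkψ z x y s = 0 := by
    rintro ⟨m, n, b⟩ hs
    cases b
    · rw [mem_A] at hs; rw [mkψ_A, if_neg hs]
    · rw [mem_B] at hs; rw [mkψ_B, if_neg hs]
  refine ⟨mkψ z x y, h0, ?_, ?_, ⟨{s | s ∈ e31.sites ∧ s.2.1 = 0}, ⟨fun s hs => hs.1, ?_⟩, ?_⟩, ?_⟩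
  · intro hcon
    rcases h.ne with h1 | h1
    · apply h1
      funext n
      have := congrFun hcon (-(n : ℤ), 0, false)
      rw [mkψ_A, if_pos (by omega)] at this
      simpa using this
    · apply h1
      funext n
      have := congrFun hcon (1 - (n : ℤ), 0, true)
      rw [mkψ_B, if_pos (by omega)] at this
      simpa using this
  · rintro ⟨m, n, b⟩ hs
    rw [shift_eq]
    cases b
    · rw [mkψ_A, mkψ_A]
      have e : 3 * (n + 1 * 1) - (m + 1 * 3) = 3 * n - m := by ring
      rw [e]
      split_ifs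
      · rw [mul_one, zpow_add₀ hz0, zpow_one]; ring
      · simp
    · rw [mkψ_B, mkψ_B]
      have e : 3 * (n + 1 * 1) - (m + 1 * 3) = 3 * n - m := by ring
      rw [e]
      split_ifs
      · rw [mul_one, zpow_add₀ hz0, zpow_one]; ring
      · simp
  · rintro ⟨m, n, b⟩ hs
    refine ⟨-n, ⟨(shift_mem _ _).mpr hs, ?_⟩, ?_⟩
    · simp [shift_eq]
    · rintro j ⟨_, hj⟩
      simp only [shift_eq] at hj
      omega
  · set F : Set Site := {s | s ∈ e31.sites ∧ s.2.1 = 0} with hFdef
    set g : F → ℕ ⊕ ℕ := fun s => if s.1.2.2 then Sum.inr (1 - s.1.1).toNat else Sum.inl (-s.1.1).toNat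
      with hg
    have hS : Summable (Sum.elim (fun n => ‖x n‖ ^ 2) (fun n => ‖y n‖ ^ 2)) := by
      exact Summable.sum _ h.sx h.sy
    have hginj : Function.Injective g := by
      rintro ⟨⟨m, n, b⟩, hs, hn⟩ ⟨⟨m', n', b'⟩, hs', hn'⟩ hgg
      simp only at hn hn'
      subst hn; subst hn'
      cases b <;> cases b' <;> simp [hg] at hgg ⊢
      · rw [mem_A] at hs hs'; omega
      · rw [mem_B] at hs hs'; omega
    refine (hS.comp_injective hginj).congr ?_
    rintro ⟨⟨m, n, b⟩, hs, hn⟩
    simp only at hn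
    subst hn
    cases b
    · rw [mem_A] at hs
      simp only [Function.comp_apply, hg, Bool.false_eq_true, if_false, Sum.elim_inl]
      rw [mkψ_A, if_pos hs]
      simp
    · rw [mem_B] at hs
      simp only [Function.comp_apply, hg, if_true, Sum.elim_inr]
      rw [mkψ_B, if_pos hs]
      have e : 3 * (0 : ℤ) - m + 1 = 1 - m := by ring
      rw [e]
      simp
  · rintro ⟨m, n, b⟩ hs
    cases b
    · rw [mem_A] at hs
      rw [ham_A _ h0, mkψ_A, if_pos hs, mkψ_B, mkψ_B, mkψ_B]
      obtain ⟨i, hi⟩ := Int.eq_ofNat_of_zero_le hs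
      have h1 := h.eqy i
      simp only [Tadj, sh] at h1
      have t1 : (3 * n - m + 1).toNat = i + 1 := by omega
      have t2 : (3 * n - (m - 1) + 1).toNat = i + 2 := by omega
      have t0 : (3 * n - m).toNat = i := by omega
      rw [if_pos (by omega), if_pos (by omega), t1, t2, t0]
      by_cases hi2 : 2 ≤ i
      · have t3 : (3 * (n - 1) - m + 1).toNat = i - 2 := by omega
        rw [if_pos (by omega), t3]
        rw [if_pos hi2, hconj] at h1
        rw [zpow_sub₀ hz0, zpow_one]
        field_simp at h1 ⊢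
        linear_combination h1
      · rw [if_neg (by omega)]
        rw [if_neg hi2] at h1
        linear_combination (z ^ n) * h1
    · rw [mem_B] at hs
      rw [ham_B _ h0, mkψ_B, if_pos hs, mkψ_A, mkψ_A, mkψ_A]
      obtain ⟨i, hi⟩ := Int.eq_ofNat_of_zero_le (show 0 ≤ 3 * n - m + 1 by omega)
      have h1 := h.eqx i
      simp only [Tseq, sh] at h1
      have t0 : (3 * n - m + 1).toNat = i := by omega
      have t3 : (3 * (n + 1) - m).toNat = i + 2 := by omega
      rw [t0, if_pos (show 0 ≤ 3 * (n + 1) - m by omega), t3, zpow_add₀ hz0, zpow_one]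
      have a1 : (if 0 ≤ 3 * n - m then z ^ n * x (3 * n - m).toNat else 0)
          = z ^ n * (if 1 ≤ i then x (i - 1) else 0) := by
        by_cases hi1 : 1 ≤ i
        · have t1 : (3 * n - m).toNat = i - 1 := by omega
          rw [if_pos (by omega), if_pos hi1, t1]
        · rw [if_neg (by omega), if_neg hi1, mul_zero]
      have a2 : (if 0 ≤ 3 * n - (m + 1) then z ^ n * x (3 * n - (m + 1)).toNat else 0)
          = z ^ n * (if 2 ≤ i then x (i - 2) else 0) := by
        by_cases hi1 : 2 ≤ i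
        · have t1 : (3 * n - (m + 1)).toNat = i - 2 := by omega
          rw [if_pos (by omega), if_pos hi1, t1]
        · rw [if_neg (by omega), if_neg hi1, mul_zero]
      rw [a1, a2]
      linear_combination (z ^ n) * h1

theorem edgeState_iff (k : Real.Angle) (E : ℝ) :
    e31.EdgeState k E ↔ ∃ x y, EPair (k.toCircle : ℂ) E x y :=
  ⟨pair_of_edgeState, fun ⟨_, _, h⟩ => edgeState_of_pair h⟩

end

end Pool.Agent.Q205.HC
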