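import Pool.Agent.Q205.HC.HalfLine

/-!
Sum-of-squares lower bound for the full convolution at `k = 0`:
`‖T_1 x‖² + |x_0|² + |x_1|² ≥ (6/25) ‖x‖²`.
-/

namespace Pool.Agent.Q205.HC
open Filter Topology


noncomputable def r4 (z0 z1 z2 z3 z4 : ℂ) : ℂ :=
  ((3 / 4) * z0 + (2 / 7) * z1 + (-1 / 10) * z2 + (5 / 8) * z3 + (1) * z4)
noncomputable def r3 (z0 z1 z2 z3 z4 : ℂ) : ℂ := ((-25 / 21) * z0 + (1) * z3)
noncomputable def r2 (z0 z1 z2 z3 z4 : ℂ) : ℂ := ((-20 / 21) * z0 + (1) * z2)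
noncomputable def r1 (z0 z1 z2 z3 z4 : ℂ) : ℂ := ((25 / 21) * z0 + (1) * z1)
noncomputable def r0 (z0 z1 z2 z3 z4 : ℂ) : ℂ := ((1) * z0)

noncomputable def W0 (z0 z1 z2 z3 c0 c1 c2 c3 : ℂ) : ℂ :=
  (-67133 / 294000) * (c0 * z0)
  + (-299 / 420) * (c0 * z1)
  + (-11 / 105) * (c0 * z2)
  + (13 / 21) * (c0 * z3)
  + (-299 / 420) * (c1 * z0)
  + (-447 / 400) * (c1 * z1)
  + (-3 / 4) * (c1 * z2)
  + (2 / 15) * (c1 * z3)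
  + (-11 / 105) * (c2 * z0)
  + (-3 / 4) * (c2 * z1)
  + (-1031 / 1200) * (c2 * z2)
  + (-5 / 6) * (c2 * z3)
  + (13 / 21) * (c3 * z0)
  + (2 / 15) * (c3 * z1)
  + (-5 / 6) * (c3 * z2)
  + (-1 / 3) * (c3 * z3)

theorem id0 (z0 z1 z2 z3 z4 c0 c1 c2 c3 c4 : ℂ) :
    (z0 + z1 + z4) * (c0 + c1 + c4) - 6 / 25 * (z2 * c2)
      = (4 / 3) * (r4 z0 z1 z2 z3 z4 * r4 c0 c1 c2 c3 c4)
        + (1 / 200) * (r3 z0 z1 z2 z3 z4 * r3 c0 c1 c2 c3 c4)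
        + (1 / 200) * (r2 z0 z1 z2 z3 z4 * r2 c0 c1 c2 c3 c4)
        + (1 / 500) * (r1 z0 z1 z2 z3 z4 * r1 c0 c1 c2 c3 c4)
        + (2117 / 294000) * (r0 z0 z1 z2 z3 z4 * r0 c0 c1 c2 c3 c4)
        + (W0 z1 z2 z3 z4 c1 c2 c3 c4 - W0 z0 z1 z2 z3 c0 c1 c2 c3) := by
  unfold W0 r4 r3 r2 r1 r0
  ring

theorem r_conj (z0 z1 z2 z3 z4 : ℂ) :
    r4 ((starRingEnd ℂ) z0) ((starRingEnd ℂ) z1) ((starRingEnd ℂ) z2) ((starRingEnd ℂ) z3) ((starRingEnd ℂ) z4) = (starRingEnd ℂ) (r4 z0 z1 z2 z3 z4) ∧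
    r3 ((starRingEnd ℂ) z0) ((starRingEnd ℂ) z1) ((starRingEnd ℂ) z2) ((starRingEnd ℂ) z3) ((starRingEnd ℂ) z4) = (starRingEnd ℂ) (r3 z0 z1 z2 z3 z4) ∧
    r2 ((starRingEnd ℂ) z0) ((starRingEnd ℂ) z1) ((starRingEnd ℂ) z2) ((starRingEnd ℂ) z3) ((starRingEnd ℂ) z4) = (starRingEnd ℂ) (r2 z0 z1 z2 z3 z4) ∧
    r1 ((starRingEnd ℂ) z0) ((starRingEnd ℂ) z1) ((starRingEnd ℂ) z2) ((starRingEnd ℂ) z3) ((starRingEnd ℂ) z4) = (starRingEnd ℂ) (r1 z0 z1 z2 z3 z4) ∧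
    r0 ((starRingEnd ℂ) z0) ((starRingEnd ℂ) z1) ((starRingEnd ℂ) z2) ((starRingEnd ℂ) z3) ((starRingEnd ℂ) z4) = (starRingEnd ℂ) (r0 z0 z1 z2 z3 z4) := by
  refine ⟨?_, ?_, ?_, ?_, ?_⟩ <;>
  simp only [r4, r3, r2, r1, r0, map_add, map_mul, map_sub, map_div₀, map_neg, map_ofNat, map_one]

/-- zero padding by five entries -/
def YY (x : ℕ → ℂ) (n : ℕ) : ℂ := if 5 ≤ n then x (n - 5) else 0

theorem YY_add (x : ℕ → ℂ) (n : ℕ) : YY x (n + 5) = x n := by simp [YY]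
theorem YY_lt (x : ℕ → ℂ) (n : ℕ) (h : n < 5) : YY x n = 0 := by rw [YY, if_neg (by omega)]

theorem YY_tendsto {x : ℕ → ℂ} (hx : Summable fun n => ‖x n‖ ^ 2) (j : ℕ) :
    Tendsto (fun n => YY x (n + j)) atTop (𝓝 0) := by
  have h0 : Tendsto (fun n => YY x (n + 5)) atTop (𝓝 0) := by
    simp only [YY_add]
    exact tendsto_zero_of_summable_sq hx
  have h1 : Tendsto (YY x) atTop (𝓝 0) := (tendsto_add_atTop_iff_nat 5).mp h0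
  exact (tendsto_add_atTop_iff_nat j).mpr h1

theorem local0 (z0 z1 z2 z3 z4 : ℂ) :
    (W0 z1 z2 z3 z4 ((starRingEnd ℂ) z1) ((starRingEnd ℂ) z2) ((starRingEnd ℂ) z3) ((starRingEnd ℂ) z4)).re
      - (W0 z0 z1 z2 z3 ((starRingEnd ℂ) z0) ((starRingEnd ℂ) z1) ((starRingEnd ℂ) z2) ((starRingEnd ℂ) z3)).re
      ≤ ‖z0 + z1 + z4‖ ^ 2 - 6 / 25 * ‖z2‖ ^ 2 := by
  have h := id0 z0 z1 z2 z3 z4 ((starRingEnd ℂ) z0) ((starRingEnd ℂ) z1) ((starRingEnd ℂ) z2) ((starRingEnd ℂ) z3) ((starRingEnd ℂ) z4)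
  obtain ⟨c4, c3, c2, c1, c0⟩ := r_conj z0 z1 z2 z3 z4
  rw [c4, c3, c2, c1, c0, ← map_add, ← map_add] at h
  simp only [Complex.mul_conj'] at h
  have h1 : ((‖z0 + z1 + z4‖ ^ 2 - 6 / 25 * ‖z2‖ ^ 2 : ℝ) : ℂ)
      = ((4 / 3 * ‖r4 z0 z1 z2 z3 z4‖ ^ 2 + 1 / 200 * ‖r3 z0 z1 z2 z3 z4‖ ^ 2
        + 1 / 200 * ‖r2 z0 z1 z2 z3 z4‖ ^ 2 + 1 / 500 * ‖r1 z0 z1 z2 z3 z4‖ ^ 2
        + 2117 / 294000 * ‖r0 z0 z1 z2 z3 z4‖ ^ 2 : ℝ) : ℂ)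
        + (W0 z1 z2 z3 z4 ((starRingEnd ℂ) z1) ((starRingEnd ℂ) z2) ((starRingEnd ℂ) z3) ((starRingEnd ℂ) z4)
          - W0 z0 z1 z2 z3 ((starRingEnd ℂ) z0) ((starRingEnd ℂ) z1) ((starRingEnd ℂ) z2) ((starRingEnd ℂ) z3)) := by
    push_cast
    exact h
  have h2 := congrArg Complex.re h1
  rw [Complex.ofReal_re, Complex.add_re, Complex.ofReal_re, Complex.sub_re] at h2
  have p4 := sq_nonneg ‖r4 z0 z1 z2 z3 z4‖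
  have p3 := sq_nonneg ‖r3 z0 z1 z2 z3 z4‖
  have p2 := sq_nonneg ‖r2 z0 z1 z2 z3 z4‖
  have p1 := sq_nonneg ‖r1 z0 z1 z2 z3 z4‖
  have p0 := sq_nonneg ‖r0 z0 z1 z2 z3 z4‖
  linarith

theorem YY_T (x : ℕ → ℂ) (m : ℕ) :
    YY x (m + 3) + YY x (m + 4) + YY x (m + 7) = Tseq 1 x m := by
  have e7 : YY x (m + 7) = x (m + 2) := YY_add x (m + 2)
  rw [e7]
  match m with
  | 0 => rw [YY_lt x 3 (by norm_num), YY_lt x 4 (by norm_num)]; simp [Tseq, sh]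
  | 1 => rw [YY_lt x 4 (by norm_num), show (1 + 4 : ℕ) = 0 + 5 from rfl, YY_add]; simp [Tseq, sh]
  | (k + 2) =>
    rw [show k + 2 + 3 = k + 5 from rfl, show k + 2 + 4 = (k + 1) + 5 from rfl, YY_add, YY_add]
    simp [Tseq, sh]
    ring

theorem sos0 (x : ℕ → ℂ) (hx : Summable fun n => ‖x n‖ ^ 2)
    (hT : Summable fun n => ‖Tseq 1 x n‖ ^ 2) :
    6 / 25 * ∑' n, ‖x n‖ ^ 2 ≤ ∑' n, ‖Tseq 1 x n‖ ^ 2 + ‖x 0‖ ^ 2 + ‖x 1‖ ^ 2 := by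
  set Z := YY x with hZ
  set V : ℕ → ℝ := fun n => (W0 (Z n) (Z (n + 1)) (Z (n + 2)) (Z (n + 3)) ((starRingEnd ℂ) (Z n))
    ((starRingEnd ℂ) (Z (n + 1))) ((starRingEnd ℂ) (Z (n + 2))) ((starRingEnd ℂ) (Z (n + 3)))).re with hV
  set F : ℕ → ℝ := fun n => ‖Z n + Z (n + 1) + Z (n + 4)‖ ^ 2 with hF
  set G : ℕ → ℝ := fun n => 6 / 25 * ‖Z (n + 2)‖ ^ 2 with hG
  have hloc : ∀ n, V (n + 1) - V n ≤ F n - G n := by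
    intro n
    exact local0 (Z n) (Z (n + 1)) (Z (n + 2)) (Z (n + 3)) (Z (n + 4))
  have hV0 : V 0 = 0 := by
    simp only [hV, zero_add, hZ, YY_lt x 0 (by norm_num), YY_lt x 1 (by norm_num),
      YY_lt x 2 (by norm_num), YY_lt x 3 (by norm_num)]
    simp [W0]
  have hVt : Tendsto V atTop (𝓝 0) := by
    have h1 : Tendsto (fun n => ((Z n, Z (n + 1), Z (n + 2), Z (n + 3)) : ℂ × ℂ × ℂ × ℂ))
        atTop (𝓝 (0, 0, 0, 0)) :=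
      (YY_tendsto hx 0).prodMk_nhds ((YY_tendsto hx 1).prodMk_nhds
        ((YY_tendsto hx 2).prodMk_nhds (YY_tendsto hx 3)))
    have hc : Continuous fun p : ℂ × ℂ × ℂ × ℂ => (W0 p.1 p.2.1 p.2.2.1 p.2.2.2 ((starRingEnd ℂ) p.1)
        ((starRingEnd ℂ) p.2.1) ((starRingEnd ℂ) p.2.2.1) ((starRingEnd ℂ) p.2.2.2)).re := by
      simp only [W0]; fun_prop
    have h2 := (hc.tendsto (0, 0, 0, 0)).comp h1
    have e0 : (W0 0 0 0 0 ((starRingEnd ℂ) 0) ((starRingEnd ℂ) 0) ((starRingEnd ℂ) 0) ((starRingEnd ℂ) 0)).re = 0 := by simp [W0]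
    rw [← e0]
    exact h2
  have hsum : ∀ N, V N ≤ ∑ n ∈ Finset.range N, (F n - G n) := by
    intro N
    induction N with
    | zero => simp [hV0]
    | succ N ih => rw [Finset.sum_range_succ]; linarith [hloc N]
  have hF3 : ∀ n, F (n + 3) = ‖Tseq 1 x n‖ ^ 2 := by
    intro n
    simp only [hF, hZ]
    rw [← YY_T]
  have hG3 : ∀ n, G (n + 3) = 6 / 25 * ‖x n‖ ^ 2 := by
    intro n
    simp only [hG, hZ]
    rw [show n + 3 + 2 = n + 5 from rfl, YY_add]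
  have hF0 : F 0 = 0 := by
    simp only [hF, hZ, zero_add, YY_lt x 0 (by norm_num), YY_lt x 1 (by norm_num),
      YY_lt x 4 (by norm_num)]
    simp
  have hF1 : F 1 = ‖x 0‖ ^ 2 := by
    simp only [hF, hZ, YY_lt x 1 (by norm_num), YY_lt x (1 + 1) (by norm_num)]
    rw [show (1 + 4 : ℕ) = 0 + 5 from rfl, YY_add]; simp
  have hF2 : F 2 = ‖x 1‖ ^ 2 := by
    simp only [hF, hZ, YY_lt x 2 (by norm_num), YY_lt x (2 + 1) (by norm_num)]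
    rw [show (2 + 4 : ℕ) = 1 + 5 from rfl, YY_add]; simp
  have hG0 : G 0 = 0 := by
    simp only [hG, hZ, zero_add, YY_lt x 2 (by norm_num)]; simp
  have hG1 : G 1 = 0 := by
    simp only [hG, hZ, YY_lt x (1 + 2) (by norm_num)]; simp
  have hG2 : G 2 = 0 := by
    simp only [hG, hZ, YY_lt x (2 + 2) (by norm_num)]; simp
  have h3 : ∀ N, V (N + 3) - (‖x 0‖ ^ 2 + ‖x 1‖ ^ 2)
      ≤ ∑ n ∈ Finset.range N, (‖Tseq 1 x n‖ ^ 2 - 6 / 25 * ‖x n‖ ^ 2) := by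
    intro N
    have e1 := hsum (N + 3)
    rw [Finset.sum_range_succ', Finset.sum_range_succ', Finset.sum_range_succ'] at e1
    simp only [zero_add, show (1 + 1 : ℕ) = 2 from rfl, hF0, hF1, hF2, hG0, hG1, hG2] at e1
    have e3 : ∀ n, F (n + 1 + 1 + 1) - G (n + 1 + 1 + 1) = ‖Tseq 1 x n‖ ^ 2 - 6 / 25 * ‖x n‖ ^ 2 := by
      intro n
      rw [show n + 1 + 1 + 1 = n + 3 from rfl, hF3, hG3]
    simp only [e3] at e1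
    linarith
  have h4 : Tendsto (fun N => ∑ n ∈ Finset.range N, (‖Tseq 1 x n‖ ^ 2 - 6 / 25 * ‖x n‖ ^ 2)) atTop
      (𝓝 (∑' n, ‖Tseq 1 x n‖ ^ 2 - 6 / 25 * ∑' n, ‖x n‖ ^ 2)) :=
    (hT.hasSum.sub (hx.hasSum.mul_left _)).tendsto_sum_nat
  have h5 : Tendsto (fun N => V (N + 3) - (‖x 0‖ ^ 2 + ‖x 1‖ ^ 2)) atTop
      (𝓝 (0 - (‖x 0‖ ^ 2 + ‖x 1‖ ^ 2))) :=
    ((tendsto_add_atTop_iff_nat 3).mpr hVt).sub_const _
  have := le_of_tendsto_of_tendsto' h5 h4 h3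
  linarith

end Pool.Agent.Q205.HC
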