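import Pool.Agent.Q205.HC.HalfLine

/-!
No eigenvalue of the half-line problem lies in the closed band `{± |F(u)| : |u| = 1}`
(except possibly `0`).
-/

namespace Pool.Agent.Q205.HC

open Polynomial

noncomputable def PA (β : ℂ) : ℂ[X] := X ^ 4 + X ^ 3 + C β
noncomputable def PB (β : ℂ) : ℂ[X] := C ((starRingEnd ℂ) β) * X ^ 4 + X + 1
noncomputable def PP (β : ℂ) (E : ℝ) : ℂ[X] := PA β * PB β - C ((E : ℂ) ^ 2) * X ^ 4

/-- root cancellation in the module of null sequences -/
theorem cancel_one (ζ : ℂ) (hζ : ‖ζ‖ ≤ 1) (y : PowerSeries ℂ)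
    (hy : Filter.Tendsto (fun n => PowerSeries.coeff n y) Filter.atTop (nhds 0))
    (p : ℂ[X]) (h : (((X - C ζ : ℂ[X]) : PowerSeries ℂ)) * y = (p : PowerSeries ℂ)) :
    ∃ q : ℂ[X], y = (q : PowerSeries ℂ) := by
  have hrec : ∀ n, p.natDegree ≤ n → PowerSeries.coeff n y = ζ * PowerSeries.coeff (n + 1) y := by
    intro n hn
    have h1 := congrArg (PowerSeries.coeff (n + 1)) h
    rw [Polynomial.coeff_coe, Polynomial.coeff_eq_zero_of_natDegree_lt (by omega)] at h1
    simp only [Polynomial.coe_sub, Polynomial.coe_X, Polynomial.coe_C, sub_mul, map_sub,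
      PowerSeries.coeff_succ_X_mul, PowerSeries.coeff_C_mul] at h1
    linear_combination h1
  have hmono : ∀ m n, p.natDegree ≤ n → ‖PowerSeries.coeff n y‖ ≤ ‖PowerSeries.coeff (n + m) y‖ := by
    intro m
    induction m with
    | zero => intro n _; simp
    | succ m ih =>
      intro n hn
      refine (ih n hn).trans ?_
      rw [hrec (n + m) (by omega), norm_mul]
      calc ‖ζ‖ * ‖PowerSeries.coeff (n + m + 1) y‖ ≤ 1 * ‖PowerSeries.coeff (n + m + 1) y‖ :=
            mul_le_mul_of_nonneg_right hζ (norm_nonneg _)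
        _ = _ := by rw [one_mul]; rfl
  have hz : ∀ n, p.natDegree ≤ n → PowerSeries.coeff n y = 0 := by
    intro n hn
    have h1 : Filter.Tendsto (fun m => ‖PowerSeries.coeff (n + m) y‖) Filter.atTop (nhds 0) := by
      have h2 := (Filter.tendsto_add_atTop_iff_nat n).mpr hy
      have h3 := h2.norm
      simp only [norm_zero] at h3
      refine h3.congr fun m => ?_
      rw [add_comm]
    have h4 : ‖PowerSeries.coeff n y‖ ≤ 0 := ge_of_tendsto' h1 fun m => hmono m n hn
    exact norm_le_zero_iff.mp h4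
  refine ⟨PowerSeries.trunc p.natDegree y, ?_⟩
  ext n
  rw [Polynomial.coeff_coe, PowerSeries.coeff_trunc]
  split_ifs with hn
  · rfl
  · exact hz n (by omega)

theorem null_poly_mul (R : ℂ[X]) (y : PowerSeries ℂ)
    (hy : Filter.Tendsto (fun n => PowerSeries.coeff n y) Filter.atTop (nhds 0)) :
    Filter.Tendsto (fun n => PowerSeries.coeff n ((R : PowerSeries ℂ) * y)) Filter.atTop (nhds 0) := by
  induction R using Polynomial.induction_on' with
  | add p q hp hq =>
    simp only [Polynomial.coe_add, add_mul, map_add]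
    simpa using hp.add hq
  | monomial d a =>
    have h1 : Filter.Tendsto (fun n => a * PowerSeries.coeff n y) Filter.atTop (nhds 0) := by
      simpa using hy.const_mul a
    have h2 : Filter.Tendsto (fun n => PowerSeries.coeff (n + d) ((Polynomial.monomial d a : PowerSeries ℂ) * y))
        Filter.atTop (nhds 0) := by
      refine h1.congr fun n => ?_
      rw [← Polynomial.C_mul_X_pow_eq_monomial, Polynomial.coe_mul, Polynomial.coe_C,
        Polynomial.coe_pow, Polynomial.coe_X, mul_assoc, PowerSeries.coeff_C_mul,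
        PowerSeries.coeff_X_pow_mul]
    exact (Filter.tendsto_add_atTop_iff_nat d).mp h2


theorem cancel_many (s : Multiset ℂ) : (∀ ζ ∈ s, ‖ζ‖ ≤ 1) → ∀ (y : PowerSeries ℂ),
    Filter.Tendsto (fun n => PowerSeries.coeff n y) Filter.atTop (nhds 0) →
    ∀ (p : ℂ[X]), (((s.map fun ζ => (X - C ζ : ℂ[X])).prod : ℂ[X]) : PowerSeries ℂ) * y
      = (p : PowerSeries ℂ) → ∃ q : ℂ[X], y = (q : PowerSeries ℂ) := by
  induction s using Multiset.induction_on with
  | empty =>
    intro _ y _ p h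
    refine ⟨p, ?_⟩
    simpa using h
  | cons ζ s ih =>
    intro hs y hy p h
    rw [Multiset.map_cons, Multiset.prod_cons, Polynomial.coe_mul, mul_assoc] at h
    obtain ⟨q, hq⟩ := cancel_one ζ (hs ζ (Multiset.mem_cons_self _ _)) _
      (null_poly_mul _ y hy) p h
    exact ih (fun ζ' h' => hs ζ' (Multiset.mem_cons_of_mem h')) y hy q hq

theorem PP_expand (β : ℂ) (hβ : ‖β‖ = 1) (E : ℝ) :
    PP β E = C ((starRingEnd ℂ) β) * X ^ 8 + C ((starRingEnd ℂ) β) * X ^ 7 + X ^ 5
      + C (3 - (E : ℂ) ^ 2) * X ^ 4 + X ^ 3 + C β * X + C β := by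
  have h : C β * C ((starRingEnd ℂ) β) = (1 : ℂ[X]) := by
    rw [← C_mul, Complex.mul_conj, Complex.normSq_eq_norm_sq, hβ]; simp
  unfold PP PA PB
  have h3 : (C (3 - (E : ℂ) ^ 2) : ℂ[X]) = 3 - C ((E : ℂ) ^ 2) := by
    rw [C_sub]; rfl
  rw [h3]
  linear_combination (X ^ 4) * h

theorem PP_natDegree (β : ℂ) (hβ : ‖β‖ = 1) (E : ℝ) : (PP β E).natDegree = 8 := by
  rw [PP_expand β hβ E]
  have hb : β ≠ 0 := by
    intro h
    rw [h] at hβ; simp at hβ
  compute_degree!

theorem PP_ne_zero (β : ℂ) (hβ : ‖β‖ = 1) (E : ℝ) : PP β E ≠ 0 := by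
  intro h
  have := PP_natDegree β hβ E
  rw [h] at this
  simp at this

/-- self-reciprocity -/
theorem PP_recip (β : ℂ) (hβ : ‖β‖ = 1) (E : ℝ) (u : ℂ) (hu : u ≠ 0) :
    (PP β E).eval u = u ^ 8 * (starRingEnd ℂ) ((PP β E).eval ((starRingEnd ℂ) u)⁻¹) := by
  rw [PP_expand β hβ E]
  simp only [eval_add, eval_mul, eval_C, eval_pow, eval_X]
  simp only [map_add, map_mul, map_pow, map_inv₀,
    Complex.conj_conj, map_sub, Complex.conj_ofReal, map_ofNat]
  field_simp
  ring

theorem PP_factor (β : ℂ) (E : ℝ) :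
    PP β E = C ((PP β E).leadingCoeff) * ((PP β E).roots.map fun ζ => (X - C ζ : ℂ[X])).prod :=
  (IsAlgClosed.splits (PP β E)).eq_prod_roots

theorem PP_factor' (β : ℂ) (hβ : ‖β‖ = 1) (E : ℝ) :
    PP β E = C ((starRingEnd ℂ) (PP β E).leadingCoeff) *
      ((PP β E).roots.map fun ζ => (1 - C ((starRingEnd ℂ) ζ) * X : ℂ[X])).prod := by
  apply Polynomial.eq_of_infinite_eval_eq
  refine Set.Infinite.mono (s := {u : ℂ | u ≠ 0}) ?_ ?_
  · intro u hu
    change u ≠ 0 at hu
    change (PP β E).eval u = eval u _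
    rw [PP_recip β hβ E u hu]
    conv_lhs => rw [PP_factor β E]
    rw [eval_mul, eval_C, eval_multiset_prod, map_mul, map_multiset_prod, Multiset.map_map,
      Multiset.map_map, eval_mul, eval_C, eval_multiset_prod, Multiset.map_map]
    have hcard : (PP β E).roots.card = 8 := by
      rw [← PP_natDegree β hβ E]
      exact ((IsAlgClosed.splits (PP β E)).natDegree_eq_card_roots).symm
    have h8 : u ^ 8 = ((PP β E).roots.map fun _ => u).prod := by
      rw [Multiset.map_const', Multiset.prod_replicate, hcard]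
    rw [h8, mul_left_comm, ← Multiset.prod_map_mul]
    congr 2
    apply Multiset.map_congr rfl
    intro ζ _
    simp only [Function.comp_apply, eval_sub, eval_X, eval_C, map_sub, map_inv₀, Complex.conj_conj,
      eval_one, eval_mul]
    field_simp
  · exact (Set.finite_singleton (0 : ℂ)).infinite_compl

theorem eval_prod_X_sub (s : Multiset ℂ) (a : ℂ) :
    ((s.map fun ζ => (X - C ζ : ℂ[X])).prod).eval a = 0 ↔ a ∈ s := by
  rw [eval_multiset_prod, Multiset.prod_eq_zero_iff, Multiset.map_map]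
  constructor
  · intro h
    obtain ⟨ζ, h1, h2⟩ := Multiset.mem_map.mp h
    simp only [Function.comp_apply, eval_sub, eval_X, eval_C] at h2
    rw [sub_eq_zero.mp h2]; exact h1
  · intro h
    exact Multiset.mem_map.mpr ⟨a, h, by simp⟩

theorem eval_prod_one_sub (s : Multiset ℂ) (a : ℂ)
    (h : ((s.map fun ζ => (1 - C ((starRingEnd ℂ) ζ) * X : ℂ[X])).prod).eval a = 0) :
    ∃ ζ ∈ s, (starRingEnd ℂ) ζ * a = 1 := by
  rw [eval_multiset_prod, Multiset.prod_eq_zero_iff, Multiset.map_map] at h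
  obtain ⟨ζ, h1, h2⟩ := Multiset.mem_map.mp h
  simp only [Function.comp_apply, eval_sub, eval_one, eval_mul, eval_C, eval_X] at h2
  exact ⟨ζ, h1, by linear_combination -h2⟩

theorem card_out_le (β : ℂ) (hβ : ‖β‖ = 1) (E : ℝ) (u₀ : ℂ) (hu : ‖u₀‖ = 1)
    (hf : ‖u₀ ^ 4 + u₀ ^ 3 + β‖ = |E|) :
    ((PP β E).roots.filter fun ζ => 1 < ‖ζ‖).card ≤ 3 := by
  set s := (PP β E).roots with hs
  set so := s.filter fun ζ => 1 < ‖ζ‖ with hso
  have hmem : ∀ ζ ∈ so, 1 < ‖ζ‖ := fun ζ h => (Multiset.mem_filter.mp h).2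
  set R : ℂ[X] := (so.map fun ζ => (X - C ζ : ℂ[X])).prod with hR
  set R' : ℂ[X] := (so.map fun ζ => (1 - C ((starRingEnd ℂ) ζ) * X : ℂ[X])).prod with hR'
  have hsplit : s = s.filter (fun ζ => 1 < ‖ζ‖) + s.filter (fun ζ => ¬ 1 < ‖ζ‖) :=
    (Multiset.filter_add_not _ _).symm
  have hRd : R ∣ PP β E := by
    rw [PP_factor β E, ← hs, hsplit, Multiset.map_add, Multiset.prod_add]
    exact Dvd.dvd.mul_left (Dvd.intro _ rfl) _
  have hR'd : R' ∣ PP β E := by
    rw [PP_factor' β hβ E, ← hs, hsplit, Multiset.map_add, Multiset.prod_add]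
    exact Dvd.dvd.mul_left (Dvd.intro _ rfl) _
  have hu0 : u₀ ≠ 0 := by
    intro h; rw [h] at hu; simp at hu
  have hroot : (PP β E).eval u₀ = 0 := by
    have hc : (starRingEnd ℂ) u₀ = u₀⁻¹ := by
      rw [Complex.inv_def, Complex.normSq_eq_norm_sq, hu]; simp
    have h1 : (PB β).eval u₀ = u₀ ^ 4 * (starRingEnd ℂ) ((PA β).eval u₀) := by
      simp only [PA, PB, eval_add, eval_mul, eval_pow, eval_X, eval_C, eval_one, map_add, map_pow, hc]
      field_simp
      ring
    have h2 : (PA β).eval u₀ * (starRingEnd ℂ) ((PA β).eval u₀) = (E : ℂ) ^ 2 := by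
      rw [Complex.mul_conj, Complex.normSq_eq_norm_sq]
      have : (PA β).eval u₀ = u₀ ^ 4 + u₀ ^ 3 + β := by simp [PA]
      rw [this, hf, sq_abs]
      push_cast; rfl
    rw [PP, eval_sub, eval_mul, h1, eval_mul, eval_C, eval_pow, eval_X]
    linear_combination u₀ ^ 4 * h2
  have hXd : (X - C u₀) ∣ PP β E := dvd_iff_isRoot.mpr hroot
  have c1 : IsCoprime R R' := by
    rw [isCoprime_iff_aeval_ne_zero_of_isAlgClosed (k := ℂ) (K := ℂ)]
    intro a
    by_contra hcon
    push Not at hcon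
    obtain ⟨e1, e2⟩ := hcon
    simp only [coe_aeval_eq_eval] at e1 e2
    have m1 := hmem a ((eval_prod_X_sub so a).mp e1)
    obtain ⟨ζ, m2, m3⟩ := eval_prod_one_sub so a e2
    have m4 := hmem ζ m2
    have m5 := congrArg norm m3
    rw [norm_mul, RCLike.norm_conj, norm_one] at m5
    nlinarith
  have c2 : IsCoprime R (X - C u₀) := by
    rw [isCoprime_iff_aeval_ne_zero_of_isAlgClosed (k := ℂ) (K := ℂ)]
    intro a
    by_contra hcon
    push Not at hcon
    obtain ⟨e1, e2⟩ := hcon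
    simp only [coe_aeval_eq_eval] at e1 e2
    have m1 := hmem a ((eval_prod_X_sub so a).mp e1)
    simp only [eval_sub, eval_X, eval_C] at e2
    rw [sub_eq_zero.mp e2, hu] at m1
    exact lt_irrefl _ m1
  have c3 : IsCoprime R' (X - C u₀) := by
    rw [isCoprime_iff_aeval_ne_zero_of_isAlgClosed (k := ℂ) (K := ℂ)]
    intro a
    by_contra hcon
    push Not at hcon
    obtain ⟨e1, e2⟩ := hcon
    simp only [coe_aeval_eq_eval] at e1 e2
    simp only [eval_sub, eval_X, eval_C] at e2
    rw [sub_eq_zero.mp e2] at e1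
    obtain ⟨ζ, m2, m3⟩ := eval_prod_one_sub so u₀ e1
    have m4 := hmem ζ m2
    have m5 := congrArg norm m3
    rw [norm_mul, RCLike.norm_conj, norm_one, hu] at m5
    linarith
  have hd : R * R' * (X - C u₀) ∣ PP β E :=
    (IsCoprime.mul_left c2 c3).mul_dvd (c1.mul_dvd hRd hR'd) hXd
  have hdeg := natDegree_le_of_dvd hd (PP_ne_zero β hβ E)
  rw [PP_natDegree β hβ E] at hdeg
  have hR0 : R ≠ 0 := by
    intro h
    have := hRd
    rw [h, zero_dvd_iff] at this
    exact PP_ne_zero β hβ E this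
  have hR'0 : R' ≠ 0 := by
    intro h
    have := hR'd
    rw [h, zero_dvd_iff] at this
    exact PP_ne_zero β hβ E this
  rw [natDegree_mul (mul_ne_zero hR0 hR'0) (X_sub_C_ne_zero _), natDegree_mul hR0 hR'0,
    natDegree_X_sub_C] at hdeg
  have d1 : R.natDegree = so.card := by
    rw [hR]; exact natDegree_multiset_prod_X_sub_C_eq_card so
  have d2 : R'.natDegree = so.card := by
    rw [hR', natDegree_multiset_prod, Multiset.map_map]
    · rw [Multiset.map_congr rfl (g := fun _ => 1)]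
      · simp
      · intro ζ hζ
        have h0 : (starRingEnd ℂ) ζ ≠ 0 := by
          intro h
          have h' : ζ = 0 := by simpa using h
          have := hmem ζ hζ
          rw [h'] at this; simp at this
          linarith
        simp only [Function.comp_apply]
        have : (1 - C ((starRingEnd ℂ) ζ) * X : ℂ[X]) = C (-(starRingEnd ℂ) ζ) * X + C 1 := by
          simp; ring
        rw [this, natDegree_linear (neg_ne_zero.mpr h0)]
    · intro h
      exact hR'0 (by rw [hR']; exact Multiset.prod_eq_zero h)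
  omega


theorem gen_eq1 {β : ℂ} {E : ℝ} {x y : ℕ → ℂ} (h : EPair β E x y) :
    (PowerSeries.X ^ 2 : PowerSeries ℂ) * (PowerSeries.C (E : ℂ) * PowerSeries.mk y)
      = ((PA β : ℂ[X]) : PowerSeries ℂ) * PowerSeries.mk x
        - ((C β * (C (x 0) + C (x 1) * X) : ℂ[X]) : PowerSeries ℂ) := by
  ext n
  rw [map_sub, Polynomial.coeff_coe]
  have hA : (PowerSeries.coeff n) (((PA β : ℂ[X]) : PowerSeries ℂ) * PowerSeries.mk x)
      = (if 4 ≤ n then x (n - 4) else 0) + (if 3 ≤ n then x (n - 3) else 0) + β * x n := by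
    simp only [PA, Polynomial.coe_add, Polynomial.coe_pow, Polynomial.coe_X, Polynomial.coe_C,
      add_mul, map_add, PowerSeries.coeff_X_pow_mul', PowerSeries.coeff_C_mul, PowerSeries.coeff_mk]
  have hL : (PowerSeries.coeff n) ((PowerSeries.X ^ 2 : PowerSeries ℂ) *
      (PowerSeries.C (E : ℂ) * PowerSeries.mk y)) = if 2 ≤ n then E * y (n - 2) else 0 := by
    simp only [PowerSeries.coeff_X_pow_mul', PowerSeries.coeff_C_mul, PowerSeries.coeff_mk]
  rw [hA, hL]
  match n with
  | 0 => simp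
  | 1 => simp [coeff_X]
  | (m + 2) =>
    have h1 := h.eqx m
    have h2 : (C β * (C (x 0) + C (x 1) * X) : ℂ[X]).coeff (m + 2) = 0 := by
      simp [coeff_C, coeff_X]
    rw [h2]
    simp only [Tseq, sh] at h1
    have e1 : (if 2 ≤ m + 2 then (E : ℂ) * y (m + 2 - 2) else 0) = E * y m := by simp
    have e2 : (if 4 ≤ m + 2 then x (m + 2 - 4) else 0) = (if 2 ≤ m then x (m - 2) else 0) := by
      by_cases hm : 2 ≤ m
      · rw [if_pos hm, if_pos (by omega)]; congr 1
      · rw [if_neg hm, if_neg (by omega)]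
    have e3 : (if 3 ≤ m + 2 then x (m + 2 - 3) else 0) = (if 1 ≤ m then x (m - 1) else 0) := by
      by_cases hm : 1 ≤ m
      · rw [if_pos hm, if_pos (by omega)]; congr 1
      · rw [if_neg hm, if_neg (by omega)]
    rw [e1, e2, e3]
    linear_combination -h1

theorem gen_eq2 {β : ℂ} {E : ℝ} {x y : ℕ → ℂ} (h : EPair β E x y) :
    (PowerSeries.X ^ 2 : PowerSeries ℂ) * (PowerSeries.C (E : ℂ) * PowerSeries.mk x)
      = ((PB β : ℂ[X]) : PowerSeries ℂ) * PowerSeries.mk y
        - ((C (y 0) + C (y 0 + y 1) * X : ℂ[X]) : PowerSeries ℂ) := by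
  ext n
  rw [map_sub, Polynomial.coeff_coe]
  have hA : (PowerSeries.coeff n) (((PB β : ℂ[X]) : PowerSeries ℂ) * PowerSeries.mk y)
      = (starRingEnd ℂ) β * (if 4 ≤ n then y (n - 4) else 0) + (if 1 ≤ n then y (n - 1) else 0) + y n := by
    have hX : (PowerSeries.X : PowerSeries ℂ) = PowerSeries.X ^ 1 := (pow_one _).symm
    simp only [PB, Polynomial.coe_add, Polynomial.coe_mul, Polynomial.coe_pow, Polynomial.coe_X,
      Polynomial.coe_C, Polynomial.coe_one, add_mul, map_add, mul_assoc, one_mul,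
      PowerSeries.coeff_C_mul, PowerSeries.coeff_X_pow_mul', PowerSeries.coeff_mk]
    rw [hX]
    simp only [PowerSeries.coeff_X_pow_mul', PowerSeries.coeff_mk]
  have hL : (PowerSeries.coeff n) ((PowerSeries.X ^ 2 : PowerSeries ℂ) *
      (PowerSeries.C (E : ℂ) * PowerSeries.mk x)) = if 2 ≤ n then E * x (n - 2) else 0 := by
    simp only [PowerSeries.coeff_X_pow_mul', PowerSeries.coeff_C_mul, PowerSeries.coeff_mk]
  rw [hA, hL]
  match n with
  | 0 => simp
  | 1 => simp [coeff_X]
  | (m + 2) =>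
    have h1 := h.eqy m
    have h2 : (C (y 0) + C (y 0 + y 1) * X : ℂ[X]).coeff (m + 2) = 0 := by
      rw [coeff_add, coeff_C_mul, coeff_X, coeff_C]
      simp
    rw [h2]
    simp only [Tadj, sh] at h1
    have e1 : (if 2 ≤ m + 2 then (E : ℂ) * x (m + 2 - 2) else 0) = E * x m := by simp
    have e2 : (if 4 ≤ m + 2 then y (m + 2 - 4) else 0) = (if 2 ≤ m then y (m - 2) else 0) := by
      by_cases hm : 2 ≤ m
      · rw [if_pos hm, if_pos (by omega)]; congr 1
      · rw [if_neg hm, if_neg (by omega)]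
    have e3 : (if 1 ≤ m + 2 then y (m + 2 - 1) else 0) = y (m + 1) := by
      rw [if_pos (by omega)]; congr 1
    rw [e1, e2, e3]
    linear_combination -h1

end Pool.Agent.Q205.HC
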